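import Mathlib

/-!
# The determinant of an R-disjoint graph factors along its flower decomposition
-/

set_option autoImplicit false

namespace Pool.Agent.Results.MP_079569_co.DetFactor

open Finset

variable {V : Type}

/-! ### Definitions -/

/-- `M` is a matching of `G`: a subgraph of `G` (on the same vertex set) in which every vertex has
at most one neighbour. Its edges are the edges of the matching. -/
def IsMatching (G M : SimpleGraph V) : Prop :=
  M ≤ G ∧ ∀ v a b, M.Adj v a → M.Adj v b → a = b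

/-- `M` is a maximum matching of `G`: a matching with the largest number of edges. -/
def IsMaxMatching (G M : SimpleGraph V) : Prop :=
  IsMatching G M ∧ ∀ M' : SimpleGraph V, IsMatching G M' → M'.edgeSet.ncard ≤ M.edgeSet.ncard

/-- The vertex `v` is left uncovered by `M`. -/
def Uncovered (M : SimpleGraph V) (v : V) : Prop := ∀ w, ¬ M.Adj v w

/-- `C` is the edge set of an odd cycle of `G`, with `2t+1` vertices, `t ≥ 1`. -/
def IsOddCycle (G : SimpleGraph V) (C : Set (Sym2 V)) : Prop :=
  ∃ (t : ℕ) (c : ZMod (2 * t + 1) → V), 1 ≤ t ∧ Function.Injective c ∧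
    (∀ i, G.Adj (c i) (c (i + 1))) ∧ C = {e | ∃ i, e = s(c i, c (i + 1))}

/-- The vertex set of a set of edges. -/
def verts (C : Set (Sym2 V)) : Set V := {v | ∃ e ∈ C, v ∈ e}

/-- `C` is an `M`-blossom of `G` with base `b`: an odd cycle such that the edges of `C` lying in
`M` cover exactly the vertices of `C` other than `b` (so `t` of its `2t+1` edges lie in `M`). -/
def IsBlossom (G M : SimpleGraph V) (C : Set (Sym2 V)) (b : V) : Prop :=
  IsOddCycle G C ∧ b ∈ verts C ∧
    ∀ v ∈ verts C, (v ≠ b ↔ ∃ e ∈ C, e ∈ M.edgeSet ∧ v ∈ e)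

/-- `p 0, ..., p (2m)` is an `M`-stem for the blossom `C` with base `b`: a path of even length
`2m` in `G`, alternating with respect to `M`, from `b` to a vertex left uncovered by `M`, meeting
`C` only in `b`. -/
def IsStem (G M : SimpleGraph V) (C : Set (Sym2 V)) (b : V) (m : ℕ) (p : ℕ → V) : Prop :=
  p 0 = b ∧ (∀ i j, i ≤ 2 * m → j ≤ 2 * m → p i = p j → i = j) ∧
    (∀ i, i < 2 * m → G.Adj (p i) (p (i + 1))) ∧
    (∀ i, i + 1 < 2 * m → (M.Adj (p i) (p (i + 1)) ↔ ¬ M.Adj (p (i + 1)) (p (i + 2)))) ∧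
    Uncovered M (p (2 * m)) ∧ ∀ i, i ≤ 2 * m → p i ∈ verts C → i = 0

/-- The reach set `R(C)`: the union of the vertex sets of all `M`-flowers with blossom `C`, over
all maximum matchings `M`. -/
def R (G : SimpleGraph V) (C : Set (Sym2 V)) : Set V :=
  {x | ∃ (M : SimpleGraph V) (b : V) (m : ℕ) (p : ℕ → V), IsMaxMatching G M ∧
    IsBlossom G M C b ∧ IsStem G M C b m p ∧ (x ∈ verts C ∨ ∃ i, i ≤ 2 * m ∧ x = p i)}

/-- `G` is `R`-disjoint. -/
def RDisjoint (G : SimpleGraph V) : Prop :=
  (∃ C, IsOddCycle G C) ∧ (∀ C, IsOddCycle G C → (R G C).Nonempty) ∧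
    ∀ C C', IsOddCycle G C → IsOddCycle G C' → C ≠ C' → Disjoint (R G C) (R G C')

/-- The set `B(G)` of the vertices in no reach set of an odd cycle. -/
def B (G : SimpleGraph V) : Set V := {x | ∀ C, IsOddCycle G C → x ∉ R G C}

open scoped Classical in
/-- The determinant of the adjacency matrix of the induced subgraph `G[S]`. -/
noncomputable def detOn [Fintype V] (G : SimpleGraph V) (S : Set V) : ℝ :=
  ((G.induce S).adjMatrix ℝ).det

/-! ### Matchings as involutions -/

/-- `f` is an involution moving vertices only along edges of `G`. -/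
def Inv (G : SimpleGraph V) (f : V → V) : Prop :=
  (∀ v, f (f v) = v) ∧ ∀ v, f v ≠ v → G.Adj v (f v)

open scoped Classical in
/-- The number of fixed points. -/
noncomputable def fx [Fintype V] (f : V → V) : ℕ := (univ.filter (fun v => f v = v)).card

/-- A matching involution with the least number of fixed points. -/
def MaxInv [Fintype V] (G : SimpleGraph V) (f : V → V) : Prop :=
  Inv G f ∧ ∀ f' : V → V, Inv G f' → fx f ≤ fx f'

/-- The matching of an involution. -/
def toM (f : V → V) (hf : ∀ v, f (f v) = v) : SimpleGraph V where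
  Adj v w := v ≠ w ∧ f v = w
  symm := ⟨fun v w h => ⟨h.1.symm, by rw [← h.2, hf]⟩⟩
  loopless := ⟨fun v h => h.1 rfl⟩

open scoped Classical in
/-- The involution of a matching. -/
noncomputable def ofM (M : SimpleGraph V) (v : V) : V :=
  if h : ∃ w, M.Adj v w then h.choose else v

theorem ofM_of_adj {G M : SimpleGraph V} (hM : IsMatching G M) {v w : V} (h : M.Adj v w) :
    ofM M v = w := by
  have h' : ∃ w, M.Adj v w := ⟨w, h⟩
  unfold ofM
  rw [dif_pos h']
  exact hM.2 v _ _ h'.choose_spec h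

theorem ofM_of_uncovered {M : SimpleGraph V} {v : V} (h : Uncovered M v) : ofM M v = v := by
  unfold ofM
  rw [dif_neg]
  rintro ⟨w, hw⟩
  exact h w hw

theorem adj_ofM {M : SimpleGraph V} {v : V} (h : ofM M v ≠ v) : M.Adj v (ofM M v) := by
  unfold ofM at h ⊢
  by_cases h' : ∃ w, M.Adj v w
  · rw [dif_pos h']
    exact h'.choose_spec
  · rw [dif_neg h'] at h
    exact absurd rfl h

theorem ofM_inv {G M : SimpleGraph V} (hM : IsMatching G M) : Inv G (ofM M) := by
  refine ⟨fun v => ?_, fun v hv => hM.1 (adj_ofM hv)⟩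
  by_cases h : ofM M v = v
  · rw [h, h]
  · exact ofM_of_adj hM (adj_ofM h).symm

theorem toM_matching {G : SimpleGraph V} {f : V → V} (hf : Inv G f) :
    IsMatching G (toM f hf.1) := by
  refine ⟨?_, ?_⟩
  · intro v w h
    have h2 : f v = w := h.2
    have := hf.2 v (by rw [h2]; exact h.1.symm)
    rwa [h2] at this
  · intro v a b h1 h2
    exact h1.2.symm.trans h2.2

theorem toM_ofM {G M : SimpleGraph V} (hM : IsMatching G M) :
    toM (ofM M) (ofM_inv hM).1 = M := by
  ext v w
  constructor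
  · rintro ⟨h1, h2⟩
    have h3 : ofM M v ≠ v := by rw [h2]; exact h1.symm
    have := adj_ofM h3
    rwa [h2] at this
  · intro h
    exact ⟨h.ne, ofM_of_adj hM h⟩

theorem card_toM [Fintype V] (f : V → V) (hf : ∀ v, f (f v) = v) :
    2 * (toM f hf).edgeSet.ncard + fx f = Fintype.card V := by
  classical
  have h1 := SimpleGraph.sum_degrees_eq_twice_card_edges (toM f hf)
  have h2 : (toM f hf).edgeSet.ncard = (toM f hf).edgeFinset.card := by
    rw [← SimpleGraph.coe_edgeFinset, Set.ncard_coe_finset]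
  rw [h2, ← h1]
  have h3 : ∀ v, (toM f hf).degree v = if f v = v then 0 else 1 := by
    intro v
    by_cases h : f v = v
    · rw [if_pos h]
      rw [← SimpleGraph.card_neighborFinset_eq_degree, Finset.card_eq_zero]
      rw [Finset.eq_empty_iff_forall_notMem]
      intro w hw
      rw [SimpleGraph.mem_neighborFinset] at hw
      exact hw.1 (h.symm.trans hw.2)
    · rw [if_neg h]
      rw [← SimpleGraph.card_neighborFinset_eq_degree, Finset.card_eq_one]
      refine ⟨f v, ?_⟩
      ext w
      rw [SimpleGraph.mem_neighborFinset, Finset.mem_singleton]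
      constructor
      · intro hw
        exact hw.2.symm
      · intro hw
        refine ⟨?_, hw.symm⟩
        rw [hw]
        exact fun e => h e.symm
  rw [Finset.sum_congr rfl (fun v _ => h3 v)]
  unfold fx
  rw [Finset.card_filter, ← Finset.sum_add_distrib]
  rw [← Finset.card_univ, Finset.card_eq_sum_ones]
  refine Finset.sum_congr rfl (fun v _ => ?_)
  split_ifs <;> rfl

theorem toM_max [Fintype V] {G : SimpleGraph V} {f : V → V} (hf : MaxInv G f) :
    IsMaxMatching G (toM f hf.1.1) := by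
  refine ⟨toM_matching hf.1, fun M' hM' => ?_⟩
  have h1 := hf.2 _ (ofM_inv hM')
  have h2 := card_toM f hf.1.1
  have h3 := card_toM (ofM M') (ofM_inv hM').1
  rw [toM_ofM hM'] at h3
  omega

theorem ofM_max [Fintype V] {G M : SimpleGraph V} (hM : IsMaxMatching G M) :
    MaxInv G (ofM M) := by
  refine ⟨ofM_inv hM.1, fun f' hf' => ?_⟩
  have h1 := hM.2 _ (toM_matching hf')
  have h2 := card_toM f' hf'.1
  have h3 := card_toM (ofM M) (ofM_inv hM.1).1
  rw [toM_ofM hM.1] at h3
  omega

/-! ### Exchange operations -/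

theorem noaug [Fintype V] {G : SimpleGraph V} {g : V → V} (hg : MaxInv G g) {x y : V}
    (hx : g x = x) (hy : g y = y) : ¬ G.Adj x y := by
  classical
  intro hadj
  have hxy : x ≠ y := hadj.ne
  let g' : V → V := fun v => if v = x then y else if v = y then x else g v
  have e1 : g' x = y := by simp [g']
  have e2 : g' y = x := by simp [g', hxy.symm]
  have e3 : ∀ v, v ≠ x → v ≠ y → g' v = g v := by
    intro v h1 h2; simp [g', h1, h2]
  have hI : Inv G g' := by
    constructor
    · intro v
      by_cases h1 : v = x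
      · rw [h1, e1, e2]
      by_cases h2 : v = y
      · rw [h2, e2, e1]
      rw [e3 v h1 h2, e3]
      · exact hg.1.1 v
      · intro h; apply h1; rw [← hg.1.1 v, h, hx]
      · intro h; apply h2; rw [← hg.1.1 v, h, hy]
    · intro v hv
      by_cases h1 : v = x
      · rw [h1, e1]; exact hadj
      by_cases h2 : v = y
      · rw [h2, e2]; exact hadj.symm
      rw [e3 v h1 h2] at hv ⊢
      exact hg.1.2 v hv
  have h1 := hg.2 g' hI
  have h2 : fx g' < fx g := by
    unfold fx
    apply Finset.card_lt_card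
    rw [Finset.ssubset_iff_of_subset]
    · refine ⟨x, ?_, ?_⟩
      · rw [Finset.mem_filter]; exact ⟨mem_univ _, hx⟩
      · rw [Finset.mem_filter]
        rintro ⟨_, h⟩
        rw [e1] at h
        exact hxy h.symm
    · intro v hv
      rw [Finset.mem_filter] at hv ⊢
      refine ⟨mem_univ _, ?_⟩
      by_cases h1 : v = x
      · rw [h1]; exact hx
      by_cases h2 : v = y
      · rw [h2]; exact hy
      rw [← e3 v h1 h2]; exact hv.2
  omega

theorem rot [Fintype V] {G : SimpleGraph V} {g : V → V} (hg : MaxInv G g) {x y z : V}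
    (hx : g x = x) (hy : g y = z) (hyz : y ≠ z) (hadj : G.Adj x y) :
    ∃ g', MaxInv G g' ∧ g' x = y ∧ g' y = x ∧ g' z = z ∧
      ∀ v, v ≠ x → v ≠ y → v ≠ z → g' v = g v := by
  classical
  have hxy : x ≠ y := hadj.ne
  have hgz : g z = y := by rw [← hy]; exact hg.1.1 y
  have hxz : x ≠ z := by
    intro h
    rw [← h, hx] at hgz
    exact hxy hgz
  let g' : V → V := fun v => if v = x then y else if v = y then x else if v = z then z else g v
  have e1 : g' x = y := by simp [g']
  have e2 : g' y = x := by simp [g', hxy.symm]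
  have e3 : g' z = z := by simp [g', hxz.symm, hyz.symm]
  have e4 : ∀ v, v ≠ x → v ≠ y → v ≠ z → g' v = g v := by
    intro v h1 h2 h3; simp [g', h1, h2, h3]
  have hI : Inv G g' := by
    constructor
    · intro v
      by_cases h1 : v = x
      · rw [h1, e1, e2]
      by_cases h2 : v = y
      · rw [h2, e2, e1]
      by_cases h3 : v = z
      · rw [h3, e3, e3]
      rw [e4 v h1 h2 h3, e4]
      · exact hg.1.1 v
      · intro h; apply h1; rw [← hg.1.1 v, h, hx]
      · intro h; apply h3; rw [← hg.1.1 v, h, hy]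
      · intro h; apply h2; rw [← hg.1.1 v, h, hgz]
    · intro v hv
      by_cases h1 : v = x
      · rw [h1, e1]; exact hadj
      by_cases h2 : v = y
      · rw [h2, e2]; exact hadj.symm
      by_cases h3 : v = z
      · rw [h3, e3] at hv; exact absurd rfl hv
      rw [e4 v h1 h2 h3] at hv ⊢
      exact hg.1.2 v hv
  refine ⟨g', ⟨hI, fun f' hf' => le_trans ?_ (hg.2 f' hf')⟩, e1, e2, e3, e4⟩
  unfold fx
  have hsub : univ.filter (fun v => g' v = v) ⊆
      insert z ((univ.filter (fun v => g v = v)).erase x) := by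
    intro v hv
    rw [Finset.mem_filter] at hv
    have hv := hv.2
    rw [Finset.mem_insert]
    by_cases h3 : v = z
    · left; exact h3
    right
    have h1 : v ≠ x := by
      intro h; rw [h, e1] at hv; exact hxy hv.symm
    have h2 : v ≠ y := by
      intro h; rw [h, e2] at hv; exact hxy hv
    rw [Finset.mem_erase, Finset.mem_filter]
    refine ⟨h1, mem_univ _, ?_⟩
    rw [← e4 v h1 h2 h3]; exact hv
  refine (Finset.card_le_card hsub).trans ?_
  refine (Finset.card_insert_le _ _).trans ?_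
  have hmem : x ∈ univ.filter (fun v => g v = v) := by
    rw [Finset.mem_filter]; exact ⟨mem_univ _, hx⟩
  rw [Finset.card_erase_of_mem hmem]
  have : 0 < (univ.filter (fun v => g v = v)).card := Finset.card_pos.2 ⟨x, hmem⟩
  omega

open scoped Classical in
/-- `f` on `K`, `g` off `K`. -/
noncomputable def pw (K : Set V) (f g : V → V) (v : V) : V := if v ∈ K then f v else g v

theorem pw_mem {K : Set V} {f g : V → V} {v : V} (h : v ∈ K) : pw K f g v = f v := by
  unfold pw; rw [if_pos h]

theorem pw_notMem {K : Set V} {f g : V → V} {v : V} (h : v ∉ K) : pw K f g v = g v := by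
  unfold pw; rw [if_neg h]

theorem pw_inv {G : SimpleGraph V} {K : Set V} {f g : V → V} (hf : Inv G f) (hg : Inv G g)
    (hfK : ∀ v ∈ K, f v ∈ K) (hgK : ∀ v ∈ K, g v ∈ K) : Inv G (pw K f g) := by
  constructor
  · intro v
    by_cases h : v ∈ K
    · rw [pw_mem h, pw_mem (hfK v h), hf.1]
    · have h2 : g v ∉ K := by
        intro h'
        apply h
        rw [← hg.1 v]
        exact hgK _ h'
      rw [pw_notMem h, pw_notMem h2, hg.1]
  · intro v hv
    by_cases h : v ∈ K
    · rw [pw_mem h] at hv ⊢; exact hf.2 v hv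
    · rw [pw_notMem h] at hv ⊢; exact hg.2 v hv

open scoped Classical in
theorem fx_pw [Fintype V] (K : Set V) (f g : V → V) :
    fx (pw K f g) = (univ.filter (fun v => v ∈ K ∧ f v = v)).card +
      (univ.filter (fun v => v ∉ K ∧ g v = v)).card := by
  unfold fx
  rw [← Finset.card_union_of_disjoint]
  · congr 1
    ext v
    simp only [Finset.mem_filter, Finset.mem_univ, true_and, Finset.mem_union]
    by_cases h : v ∈ K
    · rw [pw_mem h]; simp [h]
    · rw [pw_notMem h]; simp [h]
  · rw [Finset.disjoint_filter]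
    rintro v _ ⟨h1, _⟩ ⟨h2, _⟩
    exact h2 h1

theorem pw_same {K : Set V} (f : V → V) : pw K f f = f := by
  funext v
  unfold pw
  split_ifs <;> rfl

open scoped Classical in
theorem card_fix [Fintype V] {G : SimpleGraph V} {K : Set V} {f g : V → V} (hf : MaxInv G f)
    (hg : MaxInv G g) (hfK : ∀ v ∈ K, f v ∈ K) (hgK : ∀ v ∈ K, g v ∈ K) :
    (univ.filter (fun v => v ∈ K ∧ f v = v)).card =
      (univ.filter (fun v => v ∈ K ∧ g v = v)).card := by
  have h1 := hg.2 _ (pw_inv hf.1 hg.1 hfK hgK)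
  have h2 := hf.2 _ (pw_inv hg.1 hf.1 hgK hfK)
  have h3 := fx_pw K f g
  have h4 := fx_pw K g f
  have h5 := fx_pw K f f
  have h6 := fx_pw K g g
  rw [pw_same] at h5 h6
  omega

theorem pw_max [Fintype V] {G : SimpleGraph V} {K : Set V} {f g : V → V} (hf : MaxInv G f)
    (hg : MaxInv G g) (hfK : ∀ v ∈ K, f v ∈ K) (hgK : ∀ v ∈ K, g v ∈ K) :
    MaxInv G (pw K f g) := by
  classical
  refine ⟨pw_inv hf.1 hg.1 hfK hgK, fun f' hf' => le_trans (le_of_eq ?_) (hg.2 f' hf')⟩
  have h3 := fx_pw K f g
  have h6 := fx_pw K g g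
  have h7 := card_fix hf hg hfK hgK
  rw [pw_same] at h6
  omega

/-! ### Alternating paths -/

/-- Even alternating paths from the fixed point `b` of `g`, as lists with the far end first. -/
inductive Alt (G : SimpleGraph V) (g : V → V) (W : Set V) (b : V) : List V → Prop
  | base : Alt G g W b [b]
  | step {x y : V} {l : List V} : Alt G g W b (x :: l) → G.Adj x y → y ∉ x :: l →
      g y ∉ x :: l → g y ≠ y → y ∉ W → g y ∉ W → Alt G g W b (g y :: y :: x :: l)

theorem Alt.base_mem {G : SimpleGraph V} {g : V → V} {W : Set V} {b : V} {l : List V}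
    (h : Alt G g W b l) : b ∈ l := by
  induction h with
  | base => simp
  | step _ _ _ _ _ _ _ ih => exact List.mem_cons_of_mem _ (List.mem_cons_of_mem _ ih)

theorem Alt.ne_nil {G : SimpleGraph V} {g : V → V} {W : Set V} {b : V} {l : List V}
    (h : Alt G g W b l) : l ≠ [] := by
  intro h'
  have := h.base_mem
  rw [h'] at this
  simp at this

theorem Alt.closed {G : SimpleGraph V} {g : V → V} {W : Set V} {b : V} {l : List V}
    (hg : ∀ v, g (g v) = v) (hb : g b = b) (h : Alt G g W b l) : ∀ v ∈ l, g v ∈ l := by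
  induction h with
  | base =>
    intro v hv
    rw [List.mem_singleton] at hv ⊢
    rw [hv, hb]
  | @step x y l _ _ _ _ _ _ _ ih =>
    intro v hv
    rw [List.mem_cons, List.mem_cons] at hv
    rcases hv with hv | hv | hv
    · rw [hv, hg]; exact List.mem_cons_of_mem _ List.mem_cons_self
    · rw [hv]; exact List.mem_cons_self
    · exact List.mem_cons_of_mem _ (List.mem_cons_of_mem _ (ih v hv))

theorem Alt.mem_W {G : SimpleGraph V} {g : V → V} {W : Set V} {b : V} {l : List V}
    (h : Alt G g W b l) : ∀ v ∈ l, v ∈ W → v = b := by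
  induction h with
  | base => intro v hv _; rwa [List.mem_singleton] at hv
  | @step x y l _ _ _ _ _ h1 h2 ih =>
    intro v hv hW
    rw [List.mem_cons, List.mem_cons] at hv
    rcases hv with hv | hv | hv
    · rw [hv] at hW; exact absurd hW h2
    · rw [hv] at hW; exact absurd hW h1
    · exact ih v hv hW

/-- Data of a path from `b` to `x` for the shifted matching. -/
theorem Alt.rotate [Fintype V] {G : SimpleGraph V} {g : V → V} {W : Set V} {b : V}
    (hg : MaxInv G g) (hb : g b = b) {l : List V} (h : Alt G g W b l) :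
    ∀ x l', l = x :: l' → ∃ g', MaxInv G g' ∧ g' x = x ∧ (∀ v, v ∉ l → g' v = g v) ∧
      ∃ (m : ℕ) (p : ℕ → V), p 0 = b ∧ p (2 * m) = x ∧
        (∀ i j, i ≤ 2 * m → j ≤ 2 * m → p i = p j → i = j) ∧
        (∀ i, i < 2 * m → G.Adj (p i) (p (i + 1))) ∧
        (∀ i, i < m → g' (p (2 * i)) = p (2 * i + 1)) ∧
        (∀ v, v ∈ l ↔ ∃ i, i ≤ 2 * m ∧ v = p i) := by
  induction h with
  | base =>
    intro x l' hl
    obtain ⟨rfl, rfl⟩ := List.cons.inj hl
    refine ⟨g, hg, hb, fun _ _ => rfl, 0, fun _ => b, rfl, rfl, ?_, ?_, ?_, ?_⟩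
    · intro i j hi hj _; omega
    · intro i hi; omega
    · intro i hi; omega
    · intro v
      rw [List.mem_singleton]
      exact ⟨fun h => ⟨0, le_refl _, h⟩, fun ⟨_, _, h⟩ => h⟩
  | @step x y l _ hadj hy hgy hne _ _ ih =>
    intro z l' hl
    obtain ⟨hz, _⟩ := List.cons.inj hl
    obtain ⟨g1, hg1, hx1, hout, m, p, hp0, hpm, hinj, hpadj, hpg, hmem⟩ := ih x l rfl
    have hg1y : g1 y = g y := hout y hy
    obtain ⟨g2, hg2, h2x, h2y, h2z, hout2⟩ := rot hg1 hx1 hg1y (Ne.symm hne) hadj
    subst hz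
    have hpin : ∀ i, i ≤ 2 * m → p i ∈ x :: l := fun i hi => (hmem _).2 ⟨i, hi, rfl⟩
    have hpy : ∀ i, i ≤ 2 * m → p i ≠ y := fun i hi e => hy (e ▸ hpin i hi)
    have hpz : ∀ i, i ≤ 2 * m → p i ≠ g y := fun i hi e => hgy (e ▸ hpin i hi)
    let q : ℕ → V := fun i => if i ≤ 2 * m then p i else if i = 2 * m + 1 then y else g y
    have q1 : ∀ i, i ≤ 2 * m → q i = p i := fun i hi => by simp [q, hi]
    have q2 : q (2 * m + 1) = y := by simp [q]
    have q3 : q (2 * m + 2) = g y := by simp [q]
    have hcase : ∀ i, i ≤ 2 * (m + 1) → i ≤ 2 * m ∨ i = 2 * m + 1 ∨ i = 2 * m + 2 := by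
      intro i hi; omega
    refine ⟨g2, hg2, h2z, ?_, m + 1, q, ?_, ?_, ?_, ?_, ?_, ?_⟩
    · intro v hv
      rw [List.mem_cons, List.mem_cons, not_or, not_or] at hv
      rw [hout2 v ?_ hv.2.1 hv.1]
      · exact hout v hv.2.2
      · intro e; exact hv.2.2 (e ▸ List.mem_cons_self)
    · rw [q1 0 (Nat.zero_le _)]; exact hp0
    · exact q3
    · intro i j hi hj hij
      rcases hcase i hi with hi | hi | hi <;> rcases hcase j hj with hj | hj | hj
      · rw [q1 i hi, q1 j hj] at hij; exact hinj i j hi hj hij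
      · rw [q1 i hi, hj, q2] at hij; exact absurd hij (hpy i hi)
      · rw [q1 i hi, hj, q3] at hij; exact absurd hij (hpz i hi)
      · rw [hi, q2, q1 j hj] at hij; exact absurd hij.symm (hpy j hj)
      · rw [hi, hj]
      · rw [hi, hj, q2, q3] at hij; exact absurd hij.symm hne
      · rw [hi, q3, q1 j hj] at hij; exact absurd hij.symm (hpz j hj)
      · rw [hi, hj, q2, q3] at hij; exact absurd hij hne
      · rw [hi, hj]
    · intro i hi
      rcases Nat.lt_or_ge i (2 * m) with h | h
      · rw [q1 i h.le, q1 (i + 1) h]; exact hpadj i h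
      · have : i = 2 * m ∨ i = 2 * m + 1 := by omega
        rcases this with rfl | rfl
        · rw [q1 _ (le_refl _), q2, hpm]; exact hadj
        · rw [q2, q3]
          exact hg.1.2 y hne
    · intro i hi
      rcases Nat.lt_or_ge i m with h | h
      · rw [q1 _ (by omega), q1 _ (by omega), hout2 (p (2 * i)) ?_ (hpy _ (by omega))
          (hpz _ (by omega))]
        · exact hpg i h
        · intro e
          rw [← hpm] at e
          have := hinj _ _ (by omega) (by omega) e
          omega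
      · have : i = m := by omega
        subst this
        rw [q1 _ (le_refl _), q2, hpm]; exact h2x
    · intro v
      rw [List.mem_cons, List.mem_cons, hmem]
      constructor
      · rintro (h | h | ⟨i, hi, h⟩)
        · exact ⟨2 * m + 2, by omega, by rw [q3]; exact h⟩
        · exact ⟨2 * m + 1, by omega, by rw [q2]; exact h⟩
        · exact ⟨i, by omega, by rw [q1 i hi]; exact h⟩
      · rintro ⟨i, hi, h⟩
        rcases hcase i hi with hi | hi | hi
        · right; right; exact ⟨i, hi, by rw [← q1 i hi]; exact h⟩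
        · right; left; rw [h, hi, q2]
        · left; rw [h, hi, q3]

/-! ### Exposed odd cycles -/

/-- `g` fixes the vertex `b` of `C` and matches all other vertices of `C` along edges of `C`. -/
def Exposed (g : V → V) (C : Set (Sym2 V)) (b : V) : Prop :=
  g b = b ∧ b ∈ verts C ∧ ∀ v ∈ verts C, v ≠ b → g v ≠ v ∧ s(v, g v) ∈ C

theorem Exposed.closed {g : V → V} {C : Set (Sym2 V)} {b : V} (h : Exposed g C b) :
    ∀ v ∈ verts C, g v ∈ verts C := by
  intro v hv
  by_cases hvb : v = b
  · rw [hvb, h.1]; exact h.2.1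
  · exact ⟨_, (h.2.2 v hv hvb).2, Sym2.mem_mk_right _ _⟩

theorem ext [Fintype V] {G : SimpleGraph V} {g : V → V} {C : Set (Sym2 V)} {b : V}
    (hg : MaxInv G g) (hC : Exposed g C b) {x y : V} {l : List V}
    (h : Alt G g (verts C) b (x :: l)) (hadj : G.Adj x y) (hy : y ∉ x :: l)
    (hyC : y ∉ verts C) : g y ≠ y ∧ Alt G g (verts C) b (g y :: y :: x :: l) := by
  have h1 : g y ≠ y := by
    intro hfix
    obtain ⟨g', hg', hx', hout, -⟩ := h.rotate hg hC.1 x l rfl
    have : g' y = y := by rw [hout y hy]; exact hfix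
    exact noaug hg' hx' this hadj
  refine ⟨h1, Alt.step h hadj hy ?_ h1 hyC ?_⟩
  · intro h2
    have := h.closed hg.1.1 hC.1 _ h2
    rw [hg.1.1] at this
    exact hy this
  · intro h2
    have := hC.closed _ h2
    rw [hg.1.1] at this
    exact hyC this

/-! ### Reach sets through alternating paths -/

theorem verts_subset_R {G : SimpleGraph V} {C : Set (Sym2 V)} (h : (R G C).Nonempty) :
    verts C ⊆ R G C := by
  obtain ⟨x, M, b, m, p, h1, h2, h3, _⟩ := h
  intro v hv
  exact ⟨M, b, m, p, h1, h2, h3, Or.inl hv⟩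

theorem alt_mem_R [Fintype V] {G : SimpleGraph V} {g : V → V} {C : Set (Sym2 V)} {b : V}
    (hCyc : IsOddCycle G C) (hg : MaxInv G g) (hC : Exposed g C b) {l : List V}
    (h : Alt G g (verts C) b l) : ∀ v ∈ l, v ∈ R G C := by
  obtain ⟨x, l', rfl⟩ : ∃ x l', l = x :: l' := by
    cases l with
    | nil => exact absurd rfl h.ne_nil
    | cons x l' => exact ⟨x, l', rfl⟩
  obtain ⟨g', hg', hx', hout, m, p, hp0, hpm, hinj, hpadj, hpg, hmem⟩ :=
    h.rotate hg hC.1 x l' rfl
  have hpl : ∀ i, i ≤ 2 * m → p i ∈ x :: l' := fun i hi => (hmem _).2 ⟨i, hi, rfl⟩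
  have hpC : ∀ i, i ≤ 2 * m → p i ∈ verts C → i = 0 := by
    intro i hi hpi
    have := h.mem_W _ (hpl i hi) hpi
    rw [← hp0] at this
    exact hinj i 0 hi (Nat.zero_le _) this
  have hM1 : ∀ j, j < m → (toM g' hg'.1.1).Adj (p (2 * j)) (p (2 * j + 1)) := by
    intro j hj
    refine ⟨?_, hpg j hj⟩
    intro e
    have := hinj _ _ (by omega) (by omega) e
    omega
  have hM2 : ∀ j, j < m → ¬ (toM g' hg'.1.1).Adj (p (2 * j + 1)) (p (2 * j + 2)) := by
    intro j hj hadj
    have h1 : g' (p (2 * j + 1)) = p (2 * j + 2) := hadj.2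
    have h2 : g' (p (2 * j + 1)) = p (2 * j) := by
      rw [← hpg j hj]; exact hg'.1.1 _
    rw [h1] at h2
    have := hinj _ _ (by omega) (by omega) h2
    omega
  intro v hv
  refine ⟨toM g' hg'.1.1, b, m, p, toM_max hg', ⟨hCyc, hC.2.1, ?_⟩,
    ⟨hp0, hinj, hpadj, ?_, ?_, hpC⟩, Or.inr ((hmem v).1 hv)⟩
  · intro w hw
    constructor
    · intro hwb
      have hwl : w ∉ x :: l' := fun h' => hwb (h.mem_W _ h' hw)
      obtain ⟨h1, h2⟩ := hC.2.2 w hw hwb
      refine ⟨s(w, g w), h2, ?_, Sym2.mem_mk_left _ _⟩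
      rw [SimpleGraph.mem_edgeSet]
      exact ⟨h1.symm, hout w hwl⟩
    · rintro ⟨e, he, heM, hwe⟩ hwb
      subst hwb
      obtain ⟨u, rfl⟩ := hwe
      rw [SimpleGraph.mem_edgeSet] at heM
      have hu : u ∈ verts C := ⟨_, he, Sym2.mem_mk_right _ _⟩
      have h1 : g' w = u := heM.2
      have h2 : w ≠ u := heM.1
      rcases Nat.eq_zero_or_pos m with hm | hm
      · subst hm
        have : w = x := by rw [← hp0, ← hpm]
        rw [this, hx'] at h1
        exact h2 (this.trans h1)
      · have h3 := hpg 0 hm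
        rw [Nat.mul_zero, hp0, h1] at h3
        have h4 := hpC 1 (by omega) (by rw [← h3]; exact hu)
        omega
  · intro i hi
    rcases Nat.even_or_odd' i with ⟨j, rfl | rfl⟩
    · exact ⟨fun _ => hM2 j (by omega), fun _ => hM1 j (by omega)⟩
    · constructor
      · intro h'; exact absurd h' (hM2 j (by omega))
      · intro h'
        exact absurd (hM1 (j + 1) (by omega)) h'
  · intro w hadj
    rw [hpm] at hadj
    have h1 : g' x = w := hadj.2
    rw [hx'] at h1
    exact hadj.1 h1

theorem stem_alt {G M : SimpleGraph V} {C : Set (Sym2 V)} {b : V} {m : ℕ} {p : ℕ → V}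
    (h : IsStem G M C b m p) : ∀ k j, j + k + 1 = m →
      M.Adj (p (2 * j)) (p (2 * j + 1)) ∧ ¬ M.Adj (p (2 * j + 1)) (p (2 * j + 2)) := by
  obtain ⟨_, _, _, h4, h5, _⟩ := h
  intro k
  induction k with
  | zero =>
    intro j hj
    have h6 : ¬ M.Adj (p (2 * j + 1)) (p (2 * j + 2)) := by
      intro h'
      have e : 2 * m = 2 * j + 2 := by omega
      rw [e] at h5
      exact h5 _ h'.symm
    exact ⟨(h4 (2 * j) (by omega)).2 h6, h6⟩
  | succ k ih =>
    intro j hj
    obtain ⟨h6, _⟩ := ih (j + 1) (by omega)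
    have h7 : ¬ M.Adj (p (2 * j + 1)) (p (2 * j + 2)) := by
      intro h'
      exact (h4 (2 * j + 1) (by omega)).1 h' h6
    exact ⟨(h4 (2 * j) (by omega)).2 h7, h7⟩

theorem shift_back [Fintype V] {G : SimpleGraph V} {f : V → V} {m : ℕ} {p : ℕ → V}
    (hf : MaxInv G f) (hinj : ∀ i j, i ≤ 2 * m → j ≤ 2 * m → p i = p j → i = j)
    (hadj : ∀ i, i < 2 * m → G.Adj (p i) (p (i + 1)))
    (hend : f (p (2 * m)) = p (2 * m)) (hfp : ∀ i, i < m → f (p (2 * i)) = p (2 * i + 1)) :
    ∀ k j, j + k = m → ∃ g, MaxInv G g ∧ g (p (2 * j)) = p (2 * j) ∧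
      (∀ i, i < j → g (p (2 * i)) = p (2 * i + 1)) ∧
      (∀ i, j ≤ i → i < m → g (p (2 * i + 1)) = p (2 * i + 2)) ∧
      (∀ v, (∀ i, i ≤ 2 * m → v ≠ p i) → g v = f v) := by
  intro k
  induction k with
  | zero =>
    intro j hj
    have : j = m := hj
    subst this
    exact ⟨f, hf, hend, hfp, fun i h1 h2 => by omega, fun _ _ => rfl⟩
  | succ k ih =>
    intro j hj
    obtain ⟨g, hg, h1, h2, h3, h4⟩ := ih (j + 1) (by omega)
    have e : 2 * (j + 1) = 2 * j + 2 := by ring
    rw [e] at h1
    have hy : g (p (2 * j + 1)) = p (2 * j) := by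
      rw [← h2 j (by omega)]; exact hg.1.1 _
    have hyz : p (2 * j + 1) ≠ p (2 * j) := by
      intro e'
      have := hinj _ _ (by omega) (by omega) e'
      omega
    obtain ⟨g', hg', e1, e2, e3, e4⟩ := rot hg h1 hy hyz (hadj (2 * j + 1) (by omega)).symm
    have hne : ∀ i i', i ≤ 2 * m → i' ≤ 2 * m → i ≠ i' → p i ≠ p i' :=
      fun i i' hi hi' hii e' => hii (hinj i i' hi hi' e')
    refine ⟨g', hg', e3, ?_, ?_, ?_⟩
    · intro i hi
      rw [e4 _ (hne _ _ (by omega) (by omega) (by omega))
        (hne _ _ (by omega) (by omega) (by omega)) (hne _ _ (by omega) (by omega) (by omega))]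
      exact h2 i (by omega)
    · intro i hi him
      rcases Nat.eq_or_lt_of_le hi with h | h
      · subst h; exact e2
      · rw [e4 _ (hne _ _ (by omega) (by omega) (by omega))
          (hne _ _ (by omega) (by omega) (by omega)) (hne _ _ (by omega) (by omega) (by omega))]
        exact h3 i (by omega) him
    · intro v hv
      rw [e4 v (hv _ (by omega)) (hv _ (by omega)) (hv _ (by omega))]
      exact h4 v hv

theorem R_mem_alt [Fintype V] {G : SimpleGraph V} {C : Set (Sym2 V)} {x : V}
    (hx : x ∈ R G C) : ∃ (g : V → V) (b : V), MaxInv G g ∧ Exposed g C b ∧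
      (x ∈ verts C ∨ ∃ l, Alt G g (verts C) b l ∧ x ∈ l) := by
  obtain ⟨M, b, m, p, hM, ⟨_, hbC, hbl⟩, hst, hx⟩ := hx
  have hM' := hM.1
  have hsa := stem_alt hst
  obtain ⟨hp0, hinj, hadj, h4, h5, h6⟩ := hst
  have hfp : ∀ i, i < m → ofM M (p (2 * i)) = p (2 * i + 1) := by
    intro i hi
    exact ofM_of_adj hM' (hsa (m - 1 - i) i (by omega)).1
  obtain ⟨g, hg, g1, _, g3, g4⟩ := shift_back (ofM_max hM) hinj hadj (ofM_of_uncovered h5) hfp
    m 0 (by omega)
  rw [Nat.mul_zero, hp0] at g1
  have hE : Exposed g C b := by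
    refine ⟨g1, hbC, fun v hv hvb => ?_⟩
    obtain ⟨e, he, heM, hve⟩ := (hbl v hv).1 hvb
    obtain ⟨u, rfl⟩ := hve
    rw [SimpleGraph.mem_edgeSet] at heM
    have hgv : g v = ofM M v := by
      apply g4
      intro i hi e'
      have := h6 i hi (e' ▸ hv)
      rw [this, hp0] at e'
      exact hvb e'
    rw [hgv, ofM_of_adj hM' heM]
    exact ⟨heM.ne.symm, he⟩
  refine ⟨g, b, hg, hE, ?_⟩
  rcases hx with hx | ⟨i, hi, hx⟩
  · exact Or.inl hx
  right
  have key : ∀ i, i ≤ m → ∃ l, Alt G g (verts C) b (p (2 * i) :: l) ∧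
      ∀ v, v ∈ p (2 * i) :: l ↔ ∃ j, j ≤ 2 * i ∧ v = p j := by
    intro i
    induction i with
    | zero =>
      intro _
      refine ⟨[], ?_, ?_⟩
      · rw [Nat.mul_zero, hp0]; exact Alt.base
      · intro v
        rw [Nat.mul_zero, List.mem_singleton]
        exact ⟨fun h => ⟨0, le_refl _, h⟩, fun ⟨j, hj, h⟩ => by
          rw [h, Nat.le_zero.1 hj]⟩
    | succ i ih =>
      intro hi
      obtain ⟨l, hl, hmem⟩ := ih (by omega)
      have hgy := g3 i (Nat.zero_le _) (by omega)
      have hA := Alt.step hl (hadj (2 * i) (by omega))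
        (y := p (2 * i + 1)) (by
          rw [hmem]; rintro ⟨j, hj, e⟩
          have := hinj _ _ (by omega) (by omega) e; omega)
        (by
          rw [hmem, hgy]; rintro ⟨j, hj, e⟩
          have := hinj _ _ (by omega) (by omega) e; omega)
        (by
          rw [hgy]; intro e
          have := hinj _ _ (by omega) (by omega) e; omega)
        (by intro h'; have := h6 _ (by omega) h'; omega)
        (by rw [hgy]; intro h'; have := h6 _ (by omega) h'; omega)
      rw [hgy] at hA
      refine ⟨p (2 * i + 1) :: p (2 * i) :: l, hA, ?_⟩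
      intro v
      rw [List.mem_cons, List.mem_cons, hmem]
      constructor
      · rintro (h | h | ⟨j, hj, h⟩)
        · exact ⟨2 * i + 2, by omega, h⟩
        · exact ⟨2 * i + 1, by omega, h⟩
        · exact ⟨j, by omega, h⟩
      · rintro ⟨j, hj, h⟩
        have : j ≤ 2 * i ∨ j = 2 * i + 1 ∨ j = 2 * i + 2 := by omega
        rcases this with hj | hj | hj
        · right; right; exact ⟨j, hj, h⟩
        · right; left; rw [h, hj]
        · left; rw [h, hj]; rfl
  obtain ⟨l, hl, hmem⟩ := key m le_rfl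
  exact ⟨_, hl, (hmem x).2 ⟨i, hi, hx⟩⟩

/-! ### Moving the exposed vertex of an odd cycle -/

theorem verts_eq {t : ℕ} {c : ZMod (2 * t + 1) → V} :
    verts {e | ∃ i, e = s(c i, c (i + 1))} = Set.range c := by
  ext v
  constructor
  · rintro ⟨e, ⟨i, rfl⟩, hv⟩
    rcases Sym2.mem_iff.1 hv with h | h
    · exact ⟨i, h.symm⟩
    · exact ⟨i + 1, h.symm⟩
  · rintro ⟨i, rfl⟩
    exact ⟨_, ⟨i, rfl⟩, Sym2.mem_mk_left _ _⟩

theorem mem_cycle {t : ℕ} {c : ZMod (2 * t + 1) → V} (hc : Function.Injective c)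
    (i : ZMod (2 * t + 1)) (w : V) :
    s(c i, w) ∈ {e | ∃ i, e = s(c i, c (i + 1))} ↔ w = c (i + 1) ∨ w = c (i - 1) := by
  constructor
  · rintro ⟨j, hj⟩
    rw [Sym2.eq_iff] at hj
    rcases hj with ⟨h1, h2⟩ | ⟨h1, h2⟩
    · left; rw [hc h1]; exact h2
    · right
      have : i = j + 1 := hc h1
      rw [this, h2]
      congr 1
      ring
  · rintro (h | h)
    · exact ⟨i, by rw [h]⟩
    · refine ⟨i - 1, ?_⟩
      rw [h, Sym2.eq_swap]
      congr 2
      ring

theorem one_ne {t : ℕ} (ht : 1 ≤ t) : (1 : ZMod (2 * t + 1)) ≠ 0 := by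
  have : Fact (1 < 2 * t + 1) := ⟨by omega⟩
  exact one_ne_zero

theorem expose_iff {t : ℕ} (ht : 1 ≤ t) {c : ZMod (2 * t + 1) → V} (hc : Function.Injective c)
    {g : V → V} {a : ZMod (2 * t + 1)} :
    Exposed g {e | ∃ i, e = s(c i, c (i + 1))} (c a) ↔
      g (c a) = c a ∧ ∀ i, i ≠ a → g (c i) = c (i + 1) ∨ g (c i) = c (i - 1) := by
  unfold Exposed
  rw [verts_eq]
  constructor
  · rintro ⟨h1, _, h3⟩
    refine ⟨h1, fun i hi => ?_⟩
    have := (h3 (c i) ⟨i, rfl⟩ (fun e => hi (hc e))).2
    exact (mem_cycle hc i _).1 this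
  · rintro ⟨h1, h2⟩
    refine ⟨h1, ⟨a, rfl⟩, ?_⟩
    rintro v ⟨i, rfl⟩ hv
    have hi : i ≠ a := fun e => hv (by rw [e])
    refine ⟨?_, (mem_cycle hc i _).2 (h2 i hi)⟩
    have h10 := one_ne ht
    rcases h2 i hi with h | h
    · rw [h]; intro e
      have := hc e
      apply h10
      calc (1 : ZMod (2 * t + 1)) = (i + 1) - i := by ring
        _ = 0 := by rw [this]; ring
    · rw [h]; intro e
      have := hc e
      apply h10
      calc (1 : ZMod (2 * t + 1)) = i - (i - 1) := by ring
        _ = 0 := by rw [this]; ring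

theorem expose_step [Fintype V] {G : SimpleGraph V} {t : ℕ} (ht : 1 ≤ t)
    {c : ZMod (2 * t + 1) → V} (hc : Function.Injective c)
    (hadj : ∀ i, G.Adj (c i) (c (i + 1))) {g : V → V} {a : ZMod (2 * t + 1)}
    (hg : MaxInv G g) (h1 : g (c a) = c a)
    (h2 : ∀ i, i ≠ a → g (c i) = c (i + 1) ∨ g (c i) = c (i - 1)) :
    ∃ g', MaxInv G g' ∧ g' (c (a + 2)) = c (a + 2) ∧
      (∀ i, i ≠ a + 2 → g' (c i) = c (i + 1) ∨ g' (c i) = c (i - 1)) ∧
      ∀ v, v ∉ Set.range c → g' v = g v := by
  have h10 := one_ne ht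
  have ha1 : a + 1 ≠ a := by
    intro e
    apply h10
    calc (1 : ZMod (2 * t + 1)) = (a + 1) - a := by ring
      _ = 0 := by rw [e]; ring
  have hy : g (c (a + 1)) = c (a + 2) := by
    rcases h2 (a + 1) ha1 with h | h
    · rw [h]; congr 1; ring
    · exfalso
      have e : a + 1 - 1 = a := by ring
      rw [e] at h
      have h3 : g (c a) = c (a + 1) := by rw [← h]; exact hg.1.1 _
      rw [h1] at h3
      exact ha1 (hc h3).symm
  have hyz : c (a + 1) ≠ c (a + 2) := by
    intro e
    have := hc e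
    apply h10
    calc (1 : ZMod (2 * t + 1)) = (a + 2) - (a + 1) := by ring
      _ = 0 := by rw [← this]; ring
  obtain ⟨g', hg', e1, e2, e3, e4⟩ := rot hg h1 hy hyz (hadj a)
  refine ⟨g', hg', e3, ?_, ?_⟩
  · intro i hi
    by_cases hia : i = a
    · left; rw [hia]; exact e1
    by_cases hia1 : i = a + 1
    · right; rw [hia1, e2]; congr 1; ring
    rw [e4 _ (fun e => hia (hc e)) (fun e => hia1 (hc e)) (fun e => hi (hc e))]
    exact h2 i hia
  · intro v hv
    exact e4 v (fun e => hv ⟨_, e.symm⟩) (fun e => hv ⟨_, e.symm⟩) (fun e => hv ⟨_, e.symm⟩)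

theorem expose_move [Fintype V] {G : SimpleGraph V} {C : Set (Sym2 V)}
    (hCyc : IsOddCycle G C) {g : V → V} {b : V} (hg : MaxInv G g) (hC : Exposed g C b)
    {b' : V} (hb' : b' ∈ verts C) :
    ∃ g', MaxInv G g' ∧ Exposed g' C b' ∧ ∀ v, v ∉ verts C → g' v = g v := by
  obtain ⟨t, c, ht, hc, hadj, rfl⟩ := hCyc
  have hbC := hC.2.1
  rw [verts_eq] at hbC hb'
  obtain ⟨a, rfl⟩ := hbC
  obtain ⟨a', rfl⟩ := hb'
  rw [expose_iff ht hc] at hC
  have key : ∀ k : ℕ, ∃ g', MaxInv G g' ∧ g' (c (a + 2 * k)) = c (a + 2 * k) ∧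
      (∀ i, i ≠ a + 2 * k → g' (c i) = c (i + 1) ∨ g' (c i) = c (i - 1)) ∧
      ∀ v, v ∉ Set.range c → g' v = g v := by
    intro k
    induction k with
    | zero =>
      refine ⟨g, hg, ?_, ?_, fun _ _ => rfl⟩
      · rw [Nat.cast_zero, mul_zero, add_zero]; exact hC.1
      · rw [Nat.cast_zero, mul_zero, add_zero]; exact hC.2
    | succ k ih =>
      obtain ⟨g1, hg1, h1, h2, h3⟩ := ih
      obtain ⟨g2, hg2, h4, h5, h6⟩ := expose_step ht hc hadj hg1 h1 h2
      have e : a + 2 * ((k + 1 : ℕ) : ZMod (2 * t + 1)) = a + 2 * k + 2 := by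
        push_cast; ring
      rw [e]
      exact ⟨g2, hg2, h4, h5, fun v hv => (h6 v hv).trans (h3 v hv)⟩
  obtain ⟨g', hg', h1, h2, h3⟩ := key (((a' - a) * (t + 1) : ZMod (2 * t + 1)).val)
  have e : a + 2 * ((((a' - a) * (t + 1) : ZMod (2 * t + 1)).val : ℕ) : ZMod (2 * t + 1)) =
      a' := by
    rw [ZMod.natCast_val, ZMod.cast_id]
    have h0 : ((2 * t + 1 : ℕ) : ZMod (2 * t + 1)) = 0 := ZMod.natCast_self _
    push_cast at h0
    linear_combination (a' - a) * h0
  rw [e] at h1 h2
  refine ⟨g', hg', (expose_iff ht hc).2 ⟨h1, h2⟩, ?_⟩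
  intro v hv
  rw [verts_eq] at hv
  exact h3 v hv

/-! ### Alternating sequences -/

/-- The sequence `q, φ q, ψ (φ q), φ (ψ (φ q)), ...`. -/
def sq (φ ψ : V → V) (q : V) : ℕ → V
  | 0 => q
  | n + 1 => if n % 2 = 0 then φ (sq φ ψ q n) else ψ (sq φ ψ q n)

theorem sq_even {φ ψ : V → V} {q : V} {n : ℕ} (h : n % 2 = 0) :
    sq φ ψ q (n + 1) = φ (sq φ ψ q n) := by
  rw [sq, if_pos h]

theorem sq_odd {φ ψ : V → V} {q : V} {n : ℕ} (h : n % 2 = 1) :
    sq φ ψ q (n + 1) = ψ (sq φ ψ q n) := by
  rw [sq, if_neg (by omega)]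

theorem sq_even' {φ ψ : V → V} (hφ : ∀ v, φ (φ v) = v) {q : V} {n : ℕ} (h : n % 2 = 0) :
    φ (sq φ ψ q (n + 1)) = sq φ ψ q n := by
  rw [sq_even h, hφ]

theorem sq_odd' {φ ψ : V → V} (hψ : ∀ v, ψ (ψ v) = v) {q : V} {n : ℕ} (h : n % 2 = 1) :
    ψ (sq φ ψ q (n + 1)) = sq φ ψ q n := by
  rw [sq_odd h, hψ]

/-- Equality at indices of opposite parity forces a repetition of neighbours. -/
theorem sq_opp {φ ψ : V → V} (hφ : ∀ v, φ (φ v) = v) (hψ : ∀ v, ψ (ψ v) = v) {q : V} :
    ∀ d a : ℕ, sq φ ψ q a = sq φ ψ q (a + 2 * d + 1) →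
      ∃ s, a ≤ s ∧ s < a + 2 * d + 1 ∧ sq φ ψ q s = sq φ ψ q (s + 1) := by
  intro d
  induction d with
  | zero => intro a h; exact ⟨a, le_refl _, by omega, h⟩
  | succ d ih =>
    intro a h
    have h2 : sq φ ψ q (a + 1) = sq φ ψ q ((a + 1) + 2 * d + 1) := by
      have e1 : a + 2 * (d + 1) + 1 = (a + 2 * d + 2) + 1 := by ring
      have e2 : (a + 1) + 2 * d + 1 = a + 2 * d + 2 := by ring
      rw [e1] at h
      rw [e2]
      rcases Nat.mod_two_eq_zero_or_one a with ha | ha
      · rw [sq_even ha, h, sq_even' hφ (by omega)]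
      · rw [sq_odd ha, h, sq_odd' hψ (by omega)]
    obtain ⟨s, h3, h4, h5⟩ := ih (a + 1) h2
    exact ⟨s, by omega, by omega, h5⟩

/-- Equality at indices of the same parity can be shifted to the origin. -/
theorem sq_same {φ ψ : V → V} (hφ : ∀ v, φ (φ v) = v) (hψ : ∀ v, ψ (ψ v) = v) {q : V} {d : ℕ} :
    ∀ a : ℕ, sq φ ψ q a = sq φ ψ q (a + 2 * d) → sq φ ψ q 0 = sq φ ψ q (2 * d) := by
  intro a
  induction a with
  | zero => intro h; rwa [Nat.zero_add] at h
  | succ a ih =>
    intro h
    apply ih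
    have e : a + 1 + 2 * d = (a + 2 * d) + 1 := by ring
    rw [e] at h
    rcases Nat.mod_two_eq_zero_or_one a with ha | ha
    · rw [← sq_even' hφ ha, h, sq_even' hφ (by omega)]
    · rw [← sq_odd' hψ ha, h, sq_odd' hψ (by omega)]

theorem sq_shift {φ ψ : V → V} {q : V} {i : ℕ} (hi : i % 2 = 0) :
    ∀ n, sq φ ψ (sq φ ψ q i) n = sq φ ψ q (i + n) := by
  intro n
  induction n with
  | zero => rfl
  | succ n ih =>
    have e : i + (n + 1) = (i + n) + 1 := by ring
    rw [e]
    rcases Nat.mod_two_eq_zero_or_one n with hn | hn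
    · rw [sq_even hn, sq_even (by omega), ih]
    · rw [sq_odd hn, sq_odd (by omega), ih]

/-! ### Every reach set contains a vertex missed by a given maximum matching -/

theorem exists_fixed_aux [Fintype V] {G : SimpleGraph V}
    {f g : V → V} {b : V} (hf : MaxInv G f) (hg : MaxInv G g) (hb : g b = b) :
    ∃ n, f (sq f g b n) = sq f g b n := by
  classical
  have hfK : ∀ v ∈ Set.range (sq f g b), f v ∈ Set.range (sq f g b) := by
    rintro v ⟨n, rfl⟩
    rcases Nat.mod_two_eq_zero_or_one n with hn | hn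
    · exact ⟨n + 1, sq_even hn⟩
    · obtain ⟨m, rfl⟩ : ∃ m, n = m + 1 := ⟨n - 1, by omega⟩
      exact ⟨m, (sq_even' hf.1.1 (by omega)).symm⟩
  have hgK : ∀ v ∈ Set.range (sq f g b), g v ∈ Set.range (sq f g b) := by
    rintro v ⟨n, rfl⟩
    rcases Nat.mod_two_eq_zero_or_one n with hn | hn
    · rcases Nat.eq_zero_or_pos n with h0 | h0
      · subst h0
        exact ⟨0, hb.symm⟩
      · obtain ⟨m, rfl⟩ : ∃ m, n = m + 1 := ⟨n - 1, by omega⟩
        exact ⟨m, (sq_odd' hg.1.1 (by omega)).symm⟩
    · exact ⟨n + 1, sq_odd hn⟩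
  have h := card_fix hf hg hfK hgK
  have h1 : 0 < (univ.filter (fun v => v ∈ Set.range (sq f g b) ∧ g v = v)).card := by
    rw [Finset.card_pos]
    exact ⟨b, by rw [Finset.mem_filter]; exact ⟨mem_univ _, ⟨0, rfl⟩, hb⟩⟩
  rw [← h, Finset.card_pos] at h1
  obtain ⟨v, hv⟩ := h1
  rw [Finset.mem_filter] at hv
  obtain ⟨_, ⟨n, rfl⟩, h2⟩ := hv
  exact ⟨n, h2⟩

theorem exists_fixed [Fintype V] {G : SimpleGraph V} {C : Set (Sym2 V)}
    (hCyc : IsOddCycle G C) (hR : (R G C).Nonempty) {f : V → V} (hf : MaxInv G f) :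
    ∃ v ∈ R G C, f v = v := by
  classical
  obtain ⟨x, hx⟩ := hR
  obtain ⟨g, b, hg, hE, -⟩ := R_mem_alt hx
  have hex := exists_fixed_aux hf hg hE.1
  set u := sq f g b with hu
  set j := Nat.find hex with hj
  have hjfix : f (u j) = u j := Nat.find_spec hex
  have hjmin : ∀ n, n < j → f (u n) ≠ u n := fun n hn => Nat.find_min hex hn
  have hjeven : j % 2 = 0 := by
    by_contra h
    obtain ⟨m, hm⟩ : ∃ m, j = m + 1 := ⟨j - 1, by omega⟩
    have h1 : u j = f (u m) := by rw [hm]; exact sq_even (by omega)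
    have h2 : f (u j) = u m := by rw [h1]; exact hf.1.1 _
    apply hjmin m (by omega)
    rw [← h1, ← h2, hjfix]
  set i := Nat.findGreatest (fun n => u n ∈ verts C) j with hi
  have hij : i ≤ j := Nat.findGreatest_le j
  have hiC : u i ∈ verts C := by
    have : u 0 ∈ verts C := hE.2.1
    exact Nat.findGreatest_spec (P := fun n => u n ∈ verts C) (Nat.zero_le j) this
  have hiout : ∀ n, i < n → n ≤ j → u n ∉ verts C := fun n h1 h2 =>
    Nat.findGreatest_is_greatest h1 h2
  have hVR := verts_subset_R ⟨x, hx⟩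
  rcases Nat.eq_or_lt_of_le hij with hij' | hij'
  · exact ⟨u j, hVR (by rw [← hij']; exact hiC), hjfix⟩
  have hieven : i % 2 = 0 := by
    by_contra h
    have h1 : u (i + 1) = g (u i) := sq_odd (by omega)
    apply hiout (i + 1) (by omega) (by omega)
    rw [h1]
    exact hE.closed _ hiC
  obtain ⟨g1, hg1, hE1, hout⟩ := expose_move hCyc hg hE hiC
  -- the sequence from `u i`
  set w := sq f g (u i) with hw
  have hwu : ∀ n, w n = u (i + n) := fun n => sq_shift hieven n
  have hinv : ∀ v, f (f v) = v := hf.1.1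
  have hinvg : ∀ v, g (g v) = v := hg.1.1
  have key : ∀ s, i + 2 * s ≤ j → (∃ L, Alt G g1 (verts C) (u i) (w (2 * s) :: L) ∧
      ∀ v ∈ w (2 * s) :: L, ∃ n, n ≤ 2 * s ∧ v = w n) ∧ ∀ n, n < 2 * s → w n ≠ w (n + 1) := by
    intro s
    induction s with
    | zero =>
      intro _
      refine ⟨⟨[], Alt.base, ?_⟩, fun n hn => by omega⟩
      intro v hv
      rw [List.mem_singleton] at hv
      exact ⟨0, le_refl _, hv⟩
    | succ s ih =>
      intro hs
      obtain ⟨⟨L, hL, hLm⟩, hne⟩ := ih (by omega)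
      have hy : w (2 * s + 1) = f (w (2 * s)) := sq_even (by omega)
      have hne1 : w (2 * s) ≠ w (2 * s + 1) := by
        rw [hy, hwu]
        exact fun e => hjmin (i + 2 * s) (by omega) e.symm
      have hadj : G.Adj (w (2 * s)) (w (2 * s + 1)) := by
        rw [hy]
        apply hf.1.2
        rw [← hy]
        exact hne1.symm
      have hyC : w (2 * s + 1) ∉ verts C := by
        rw [hwu]; exact hiout _ (by omega) (by omega)
      have hyL : w (2 * s + 1) ∉ w (2 * s) :: L := by
        intro h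
        obtain ⟨n, hn, e⟩ := hLm _ h
        rcases Nat.mod_two_eq_zero_or_one n with hn2 | hn2
        · obtain ⟨r, rfl⟩ : ∃ r, n = 2 * r := ⟨n / 2, by omega⟩
          obtain ⟨d, hd⟩ : ∃ d, s = r + d := ⟨s - r, by omega⟩
          have e2 : 2 * s + 1 = 2 * r + 2 * d + 1 := by omega
          rw [e2] at e
          obtain ⟨s', h1, h2, h3⟩ := sq_opp hinv hinvg d (2 * r) e.symm
          rcases Nat.lt_or_ge s' (2 * s) with h4 | h4
          · exact hne s' h4 h3
          · have : s' = 2 * s := by omega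
            rw [this] at h3
            exact hne1 h3
        · obtain ⟨r, rfl⟩ : ∃ r, n = 2 * r + 1 := ⟨n / 2, by omega⟩
          obtain ⟨d, hd⟩ : ∃ d, s = r + d := ⟨s - r, by omega⟩
          have e2 : 2 * s + 1 = 2 * r + 1 + 2 * d := by omega
          rw [e2] at e
          have h3 := sq_same hinv hinvg (2 * r + 1) e.symm
          have h4 : w (2 * d) ∉ verts C := by
            rw [hwu]; exact hiout _ (by omega) (by omega)
          apply h4
          rw [hw, ← h3]
          exact hiC
      obtain ⟨h1, h2⟩ := ext hg1 hE1 hL hadj hyL hyC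
      have hgy : g1 (w (2 * s + 1)) = w (2 * s + 2) := by
        rw [hout _ hyC]
        exact (sq_odd (by omega)).symm
      rw [hgy] at h1 h2
      refine ⟨⟨_, h2, ?_⟩, ?_⟩
      · intro v hv
        rw [List.mem_cons, List.mem_cons] at hv
        rcases hv with hv | hv | hv
        · exact ⟨2 * s + 2, by omega, hv⟩
        · exact ⟨2 * s + 1, by omega, hv⟩
        · obtain ⟨n, hn, e⟩ := hLm v hv
          exact ⟨n, by omega, e⟩
      · intro n hn
        have : n < 2 * s ∨ n = 2 * s ∨ n = 2 * s + 1 := by omega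
        rcases this with h | h | h
        · exact hne n h
        · rw [h]; exact hne1
        · rw [h]; exact h1.symm
  obtain ⟨s, hs⟩ : ∃ s, j = i + 2 * s := ⟨(j - i) / 2, by omega⟩
  obtain ⟨⟨L, hL, _⟩, _⟩ := key s (by omega)
  refine ⟨u j, ?_, hjfix⟩
  have := alt_mem_R hCyc hg1 hE1 hL (w (2 * s)) List.mem_cons_self
  rwa [hwu, ← hs] at this

/-! ### Matching edges do not leave a reach set -/

theorem fact_aux [Fintype V] {G : SimpleGraph V} {C : Set (Sym2 V)} {f g : V → V} {b : V}
    (hCyc : IsOddCycle G C)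
    (huniq : ∀ h : V → V, MaxInv G h → ∀ v w, v ∈ R G C → w ∈ R G C → h v = v → h w = w → v = w)
    (hf : MaxInv G f) (hg : MaxInv G g) (hEf : Exposed f C b) (hEg : Exposed g C b)
    {l : List V} (h : Alt G g (verts C) b l) :
    ∀ v ∈ l, ∀ w, Relation.ReflTransGen (fun a c => c = f a ∨ c = g a) v w → w ∈ R G C := by
  classical
  have hinvf : ∀ v, f (f v) = v := hf.1.1
  have hinvg : ∀ v, g (g v) = v := hg.1.1
  have hsym : ∀ v w, Relation.ReflTransGen (fun a c => c = f a ∨ c = g a) v w →
      Relation.ReflTransGen (fun a c => c = f a ∨ c = g a) w v := by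
    intro v w hvw
    induction hvw with
    | refl => exact .refl
    | tail _ h2 ih =>
      refine Relation.ReflTransGen.head ?_ ih
      rcases h2 with h2 | h2
      · left; rw [h2, hinvf]
      · right; rw [h2, hinvg]
  have hbR : b ∈ R G C := alt_mem_R hCyc hg hEg Alt.base b (List.mem_singleton.2 rfl)
  induction h with
  | base =>
    intro v hv w hvw
    rw [List.mem_singleton] at hv
    subst hv
    have : w = v := by
      induction hvw with
      | refl => rfl
      | tail _ h2 ih =>
        rcases h2 with h2 | h2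
        · rw [h2, ih, hEf.1]
        · rw [h2, ih, hEg.1]
    rw [this]; exact hbR
  | @step x y l hA hadj hy hgy hne hyW hgyW ih =>
    have hA2 := Alt.step hA hadj hy hgy hne hyW hgyW
    have main : ∀ w, Relation.ReflTransGen (fun a c => c = f a ∨ c = g a) y w → w ∈ R G C := by
      by_cases hK : ∃ v' ∈ x :: l, Relation.ReflTransGen (fun a c => c = f a ∨ c = g a) y v'
      · obtain ⟨v', hv', hyv'⟩ := hK
        intro w hw
        exact ih v' hv' w ((hsym _ _ hyv').trans hw)
      have hK' : ∀ v' ∈ x :: l,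
          ¬ Relation.ReflTransGen (fun a c => c = f a ∨ c = g a) y v' :=
        fun v' hv' h' => hK ⟨v', hv', h'⟩
      set u := sq g f y with hu
      have hKu : ∀ n, Relation.ReflTransGen (fun a c => c = f a ∨ c = g a) y (u n) := by
        intro n
        induction n with
        | zero => exact .refl
        | succ n ihn =>
          refine ihn.tail ?_
          rcases Nat.mod_two_eq_zero_or_one n with hn | hn
          · right; exact sq_even hn
          · left; exact sq_odd hn
      have hub : ∀ n, u n ≠ b := by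
        intro n e
        exact hK' b hA.base_mem (e ▸ hKu n)
      have hnf : ∀ v, v ∈ R G C → v ≠ b → f v ≠ v := fun v hv hvb e =>
        hvb (huniq f hf v b hv hbR e hEf.1)
      have hng : ∀ v, v ∈ R G C → v ≠ b → g v ≠ v := fun v hv hvb e =>
        hvb (huniq g hg v b hv hbR e hEg.1)
      have claim : ∀ n, ∃ L, Alt G g (verts C) b (u (2 * n + 1) :: L) ∧
          ∀ v ∈ u (2 * n + 1) :: L, v ∈ x :: l ∨ ∃ m, m ≤ 2 * n + 1 ∧ v = u m := by
        intro n
        induction n using Nat.strong_induction_on with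
        | _ n ihn =>
          rcases Nat.eq_zero_or_pos n with h0 | h0
          · subst h0
            refine ⟨y :: x :: l, hA2, ?_⟩
            intro v hv
            rw [List.mem_cons, List.mem_cons] at hv
            rcases hv with hv | hv | hv
            · right; exact ⟨1, le_refl _, hv⟩
            · right; exact ⟨0, by omega, hv⟩
            · left; exact hv
          obtain ⟨n, rfl⟩ : ∃ m, n = m + 1 := ⟨n - 1, by omega⟩
          obtain ⟨L, hL, hLm⟩ := ihn n (by omega)
          have hRr : ∀ r, r ≤ n → u (2 * r + 1) ∈ R G C := by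
            intro r hr
            obtain ⟨L', hL', _⟩ := ihn r (by omega)
            exact alt_mem_R hCyc hg hEg hL' _ List.mem_cons_self
          have hy2 : u (2 * n + 2) = f (u (2 * n + 1)) := sq_odd (by omega)
          have hy3 : u (2 * (n + 1) + 1) = g (u (2 * n + 2)) := sq_even (by omega)
          have hne2 : f (u (2 * n + 1)) ≠ u (2 * n + 1) := hnf _ (hRr n le_rfl) (hub _)
          have hadj2 : G.Adj (u (2 * n + 1)) (u (2 * n + 2)) := by
            rw [hy2]; exact hf.1.2 _ hne2
          have hyC2 : u (2 * n + 2) ∉ verts C := by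
            intro h'
            have h1 := hEf.closed _ h'
            rw [hy2, hinvf] at h1
            exact hub _ (hL.mem_W _ List.mem_cons_self h1)
          by_cases hin : u (2 * n + 2) ∈ u (2 * n + 1) :: L
          · rcases hLm _ hin with h' | ⟨m, hm, e⟩
            · exact absurd (hKu _) (hK' _ h')
            · rcases Nat.mod_two_eq_zero_or_one m with hm2 | hm2
              · obtain ⟨r, rfl⟩ : ∃ r, m = 2 * r := ⟨m / 2, by omega⟩
                obtain ⟨L', hL', hLm'⟩ := ihn r (by omega)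
                have e2 : u (2 * (n + 1) + 1) = u (2 * r + 1) := by
                  rw [hy3, e]; exact (sq_even (by omega)).symm
                rw [e2]
                refine ⟨L', hL', fun v hv => ?_⟩
                rcases hLm' v hv with h1 | ⟨m, h1, h2⟩
                · left; exact h1
                · right; exact ⟨m, by omega, h2⟩
              · exfalso
                obtain ⟨d, hd⟩ : ∃ d, 2 * n + 2 = m + 2 * d + 1 :=
                  ⟨(2 * n + 1 - m) / 2, by omega⟩
                rw [hd] at e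
                obtain ⟨s, h1, h2, h3⟩ := sq_opp hinvg hinvf d m e.symm
                rcases Nat.mod_two_eq_zero_or_one s with hs | hs
                · obtain ⟨r, rfl⟩ : ∃ r, s = 2 * r := ⟨s / 2, by omega⟩
                  have h4 : g (u (2 * r + 1)) = u (2 * r) := sq_even' hinvg (by omega)
                  have h5 : g (u (2 * r + 1)) = u (2 * r + 1) := h4.trans h3
                  exact hng _ (hRr r (by omega)) (hub _) h5
                · obtain ⟨r, rfl⟩ : ∃ r, s = 2 * r + 1 := ⟨s / 2, by omega⟩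
                  have h4 : u (2 * r + 1 + 1) = f (u (2 * r + 1)) := sq_odd (by omega)
                  exact hnf _ (hRr r (by omega)) (hub _) (h4.symm.trans h3.symm)
          · obtain ⟨_, h2⟩ := ext hg hEg hL hadj2 hin hyC2
            rw [← hy3] at h2
            refine ⟨_, h2, fun v hv => ?_⟩
            rw [List.mem_cons, List.mem_cons] at hv
            rcases hv with hv | hv | hv
            · right; exact ⟨_, le_refl _, hv⟩
            · right; exact ⟨2 * n + 2, by omega, hv⟩
            · rcases hLm v hv with h1 | ⟨m, h1, h2⟩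
              · left; exact h1
              · right; exact ⟨m, by omega, h2⟩
      have hRodd : ∀ r, u (2 * r + 1) ∈ R G C := by
        intro r
        obtain ⟨L', hL', _⟩ := claim r
        exact alt_mem_R hCyc hg hEg hL' _ List.mem_cons_self
      have hReven : ∀ r, u (2 * r) ∈ R G C := by
        intro r
        obtain ⟨L', hL', _⟩ := claim r
        have h4 : g (u (2 * r + 1)) = u (2 * r) := sq_even' hinvg (by omega)
        rw [← h4]
        exact alt_mem_R hCyc hg hEg hL' _ (hL'.closed hinvg hEg.1 _ List.mem_cons_self)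
      have hRall : ∀ n, u n ∈ R G C := by
        intro n
        rcases Nat.mod_two_eq_zero_or_one n with hn | hn
        · obtain ⟨r, rfl⟩ : ∃ r, n = 2 * r := ⟨n / 2, by omega⟩
          exact hReven r
        · obtain ⟨r, rfl⟩ : ∃ r, n = 2 * r + 1 := ⟨n / 2, by omega⟩
          exact hRodd r
      have hnofix : ∀ s, u s ≠ u (s + 1) := by
        intro s e
        rcases Nat.mod_two_eq_zero_or_one s with hs | hs
        · have h4 : u (s + 1) = g (u s) := sq_even hs
          exact hng _ (hRall s) (hub _) (h4.symm.trans e.symm)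
        · have h4 : u (s + 1) = f (u s) := sq_odd hs
          exact hnf _ (hRall s) (hub _) (h4.symm.trans e.symm)
      have hf0 : ∃ n, f (u 0) = u n := by
        obtain ⟨a, a', haa, he⟩ : ∃ a a' : ℕ, a < a' ∧ u a = u a' := by
          obtain ⟨a, a', hne', he⟩ := Finite.exists_ne_map_eq_of_infinite u
          rcases lt_or_gt_of_ne hne' with h' | h'
          · exact ⟨a, a', h', he⟩
          · exact ⟨a', a, h', he.symm⟩
        rcases Nat.mod_two_eq_zero_or_one (a' - a) with hd | hd
        · obtain ⟨d, hd'⟩ : ∃ d, a' = a + 2 * d := ⟨(a' - a) / 2, by omega⟩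
          rw [hd'] at he
          have h5 := sq_same hinvg hinvf a he
          obtain ⟨e, rfl⟩ : ∃ e, d = e + 1 := ⟨d - 1, by omega⟩
          refine ⟨2 * e + 1, ?_⟩
          have h6 : u 0 = u (2 * e + 1 + 1) := h5
          rw [h6]
          exact sq_odd' hinvf (by omega)
        · exfalso
          obtain ⟨d, hd'⟩ : ∃ d, a' = a + 2 * d + 1 := ⟨(a' - a) / 2, by omega⟩
          rw [hd'] at he
          obtain ⟨s, _, _, h3⟩ := sq_opp hinvg hinvf d a he
          exact hnofix s h3
      intro w hw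
      have hrange : ∃ n, w = u n := by
        induction hw with
        | refl => exact ⟨0, rfl⟩
        | @tail a c _ h2 ih2 =>
          obtain ⟨n, rfl⟩ := ih2
          rcases h2 with h2 | h2
          · rcases Nat.mod_two_eq_zero_or_one n with hn | hn
            · rcases Nat.eq_zero_or_pos n with h0 | h0
              · subst h0
                obtain ⟨n', hn'⟩ := hf0
                exact ⟨n', h2.trans hn'⟩
              · obtain ⟨m, rfl⟩ : ∃ m, n = m + 1 := ⟨n - 1, by omega⟩
                exact ⟨m, h2.trans (sq_odd' hinvf (by omega))⟩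
            · exact ⟨n + 1, h2.trans (sq_odd hn).symm⟩
          · rcases Nat.mod_two_eq_zero_or_one n with hn | hn
            · exact ⟨n + 1, h2.trans (sq_even hn).symm⟩
            · obtain ⟨m, rfl⟩ : ∃ m, n = m + 1 := ⟨n - 1, by omega⟩
              exact ⟨m, h2.trans (sq_even' hinvg (by omega))⟩
      obtain ⟨n, rfl⟩ := hrange
      exact hRall n
    intro v hv w hvw
    rw [List.mem_cons, List.mem_cons] at hv
    rcases hv with hv | hv | hv
    · refine main w (Relation.ReflTransGen.head (Or.inr hv) hvw)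
    · rw [hv] at hvw; exact main w hvw
    · exact ih v hv w hvw

theorem fact [Fintype V] {G : SimpleGraph V} {C : Set (Sym2 V)} {f : V → V} {b' : V}
    (hCyc : IsOddCycle G C)
    (huniq : ∀ h : V → V, MaxInv G h → ∀ v w, v ∈ R G C → w ∈ R G C → h v = v → h w = w → v = w)
    (hf : MaxInv G f) (hEf : Exposed f C b') {x : V} (hx : x ∈ R G C) (hxC : x ∉ verts C) :
    f x ∈ R G C := by
  obtain ⟨g, b, hg, hEg, h⟩ := R_mem_alt hx
  rcases h with h | ⟨l, hl, hxl⟩
  · exact absurd h hxC
  have hf1 : MaxInv G (pw (verts C) g f) := pw_max hg hf hEg.closed hEf.closed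
  have hE1 : Exposed (pw (verts C) g f) C b := by
    refine ⟨?_, hEg.2.1, fun v hv hvb => ?_⟩
    · rw [pw_mem hEg.2.1]; exact hEg.1
    · rw [pw_mem hv]; exact hEg.2.2 v hv hvb
  have := fact_aux hCyc huniq hf1 hg hE1 hEg hl x hxl (pw (verts C) g f x)
    (Relation.ReflTransGen.single (Or.inl rfl))
  rwa [pw_notMem hxC] at this

/-! ### The matching of a permutation along edges -/

/-- The edges of the cycle of `σ` through `v`. -/
def E (σ : Equiv.Perm V) (v : V) : Set (Sym2 V) := {e | ∃ n : ℕ, e = s(σ^[n] v, σ^[n + 1] v)}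

theorem verts_E (σ : Equiv.Perm V) (v w : V) : w ∈ verts (E σ v) ↔ ∃ n : ℕ, w = σ^[n] v := by
  constructor
  · rintro ⟨e, ⟨n, rfl⟩, hw⟩
    rcases Sym2.mem_iff.1 hw with h | h
    · exact ⟨n, h⟩
    · exact ⟨n + 1, h⟩
  · rintro ⟨n, rfl⟩
    exact ⟨_, ⟨n, rfl⟩, Sym2.mem_mk_left _ _⟩

theorem E_odd [Finite V] {G : SimpleGraph V} {σ : Equiv.Perm V} (hσ : ∀ v, G.Adj v (σ v)) (v : V)
    (t : ℕ) (ht : Function.minimalPeriod σ v = 2 * t + 1) : IsOddCycle G (E σ v) := by
  have ht1 : 1 ≤ t := by
    rcases Nat.eq_zero_or_pos t with h | h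
    · exfalso
      subst h
      have : σ v = v := Function.minimalPeriod_eq_one_iff_isFixedPt.1 ht
      exact (hσ v).ne this.symm
    · exact h
  have : NeZero (2 * t + 1) := ⟨by omega⟩
  have hfact : Fact (1 < 2 * t + 1) := ⟨by omega⟩
  have hmod : ∀ n, σ^[n % (2 * t + 1)] v = σ^[n] v := by
    intro n
    rw [← ht]
    exact Function.iterate_mod_minimalPeriod_eq
  have hstep : ∀ j : ZMod (2 * t + 1), σ^[(j + 1).val] v = σ^[j.val + 1] v := by
    intro j
    rw [ZMod.val_add, ZMod.val_one, hmod]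
  refine ⟨t, fun j => σ^[j.val] v, ht1, ?_, ?_, ?_⟩
  · intro i j hij
    have h1 : i.val < Function.minimalPeriod σ v := by rw [ht]; exact ZMod.val_lt i
    have h2 : j.val < Function.minimalPeriod σ v := by rw [ht]; exact ZMod.val_lt j
    exact ZMod.val_injective _ (Function.iterate_injOn_Iio_minimalPeriod h1 h2 hij)
  · intro i
    show G.Adj (σ^[i.val] v) (σ^[(i + 1).val] v)
    rw [hstep, Function.iterate_succ_apply']
    exact hσ _
  · ext e
    constructor
    · rintro ⟨n, rfl⟩
      refine ⟨(n : ZMod (2 * t + 1)), ?_⟩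
      show s(σ^[n] v, σ^[n + 1] v) = s(σ^[(n : ZMod (2 * t + 1)).val] v,
        σ^[((n : ZMod (2 * t + 1)) + 1).val] v)
      rw [hstep, Function.iterate_succ_apply', Function.iterate_succ_apply', ZMod.val_natCast,
        hmod]
    · rintro ⟨i, rfl⟩
      refine ⟨i.val, ?_⟩
      show s(σ^[i.val] v, σ^[(i + 1).val] v) = _
      rw [hstep]

theorem perm_matching [Fintype V] {G : SimpleGraph V} {σ : Equiv.Perm V}
    (hσ : ∀ v, G.Adj v (σ v)) :
    ∃ f : V → V, Inv G f ∧ (∀ v, f v = v ∨ f v = σ v ∨ f v = σ.symm v) ∧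
      (∀ v, f v = v → IsOddCycle G (E σ v)) ∧
      (∀ v w, f v = v → f w = w → (∃ n : ℕ, w = σ^[n] v) → v = w) := by
  classical
  let β : V → V := fun v => Quotient.out (Quotient.mk (Equiv.Perm.SameCycle.setoid σ) v)
  have hβ1 : ∀ v, σ.SameCycle (β v) v := fun v =>
    @Quotient.mk_out _ (Equiv.Perm.SameCycle.setoid σ) v
  have hβ2 : ∀ v w, σ.SameCycle v w → β v = β w := by
    intro v w h
    have : Quotient.mk (Equiv.Perm.SameCycle.setoid σ) v =
        Quotient.mk (Equiv.Perm.SameCycle.setoid σ) w := Quotient.sound h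
    simp only [β, this]
  have hper : ∀ v, v ∈ Function.periodicPts σ := fun v => σ.injective.mem_periodicPts v
  let P : V → ℕ := fun v => Function.minimalPeriod σ (β v)
  have hPpos : ∀ v, 0 < P v := fun v =>
    Function.minimalPeriod_pos_of_mem_periodicPts (hper _)
  have hex : ∀ v, ∃ n : ℕ, σ^[n] (β v) = v := by
    intro v
    obtain ⟨i, hi⟩ := (hβ1 v).exists_nat_pow_eq
    exact ⟨i, by rw [Equiv.Perm.iterate_eq_pow]; exact hi⟩
  let ι : V → ℕ := fun v => Nat.find (hex v)
  have hι : ∀ v, σ^[ι v] (β v) = v := fun v => Nat.find_spec (hex v)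
  have hιlt : ∀ v, ι v < P v := by
    intro v
    obtain ⟨n, hn⟩ := hex v
    have h1 : σ^[n % P v] (β v) = v := by
      rw [← hn]
      have : Function.minimalPeriod σ (β (σ^[n] (β v))) = P v := by
        rw [hn]
      show σ^[n % P (σ^[n] (β v))] (β (σ^[n] (β v))) = _
      rw [hn]
      conv_rhs => rw [← hn]
      exact Function.iterate_mod_minimalPeriod_eq
    exact lt_of_le_of_lt (Nat.find_min' (hex v) h1) (Nat.mod_lt _ (hPpos v))
  have hιuniq : ∀ v n, n < P v → σ^[n] (β v) = v → n = ι v := by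
    intro v n hn h
    exact Function.iterate_injOn_Iio_minimalPeriod hn (hιlt v) (h.trans (hι v).symm)
  have hβσ : ∀ v, β (σ v) = β v := fun v =>
    (hβ2 v (σ v) (Equiv.Perm.sameCycle_apply_right.2 (Equiv.Perm.SameCycle.refl _ _))).symm
  have hPσ : ∀ v, P (σ v) = P v := fun v => by simp only [P, hβσ]
  have hιs1 : ∀ v, ι v + 1 < P v → ι (σ v) = ι v + 1 := by
    intro v h
    refine (hιuniq (σ v) (ι v + 1) (by rw [hPσ]; exact h) ?_).symm
    rw [hβσ, Function.iterate_succ_apply', hι]
  have hιs2 : ∀ v, ι v + 1 = P v → ι (σ v) = 0 := by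
    intro v h
    refine (hιuniq (σ v) 0 (hPpos _) ?_).symm
    rw [hβσ, Function.iterate_zero_apply]
    have h1 : σ^[P v] (β v) = β v := Function.iterate_minimalPeriod
    rw [← h, Function.iterate_succ_apply', hι] at h1
    exact h1.symm
  let f : V → V := fun v =>
    if ι v % 2 = 0 then (if ι v + 1 = P v then v else σ v) else σ.symm v
  have f1 : ∀ v, ι v % 2 = 0 → ι v + 1 = P v → f v = v := by
    intro v h1 h2; simp only [f, if_pos h1, if_pos h2]
  have f2 : ∀ v, ι v % 2 = 0 → ι v + 1 ≠ P v → f v = σ v := by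
    intro v h1 h2; simp only [f, if_pos h1, if_neg h2]
  have f3 : ∀ v, ι v % 2 ≠ 0 → f v = σ.symm v := by
    intro v h1; simp only [f, if_neg h1]
  have hadj' : ∀ v, G.Adj v (σ.symm v) := by
    intro v
    have := hσ (σ.symm v)
    rw [Equiv.apply_symm_apply] at this
    exact this.symm
  have ffix : ∀ v, f v = v → ι v % 2 = 0 ∧ ι v + 1 = P v := by
    intro v hv
    by_cases h1 : ι v % 2 = 0
    · by_cases h2 : ι v + 1 = P v
      · exact ⟨h1, h2⟩
      · rw [f2 v h1 h2] at hv
        exact absurd hv.symm (hσ v).ne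
    · rw [f3 v h1] at hv
      exact absurd hv.symm (hadj' v).ne
  refine ⟨f, ⟨?_, ?_⟩, ?_, ?_, ?_⟩
  · intro v
    by_cases h1 : ι v % 2 = 0
    · by_cases h2 : ι v + 1 = P v
      · rw [f1 v h1 h2, f1 v h1 h2]
      · rw [f2 v h1 h2]
        have h3 : ι (σ v) = ι v + 1 := hιs1 v (by have := hιlt v; omega)
        rw [f3 (σ v) (by rw [h3]; omega), Equiv.symm_apply_apply]
    · rw [f3 v h1]
      set w := σ.symm v with hw
      have hwv : σ w = v := by rw [hw, Equiv.apply_symm_apply]
      have h2 : ι w + 1 < P w := by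
        by_contra h3
        have h4 := hιs2 w (by have := hιlt w; omega)
        rw [hwv] at h4
        exact h1 (by rw [h4])
      have h3 := hιs1 w h2
      rw [hwv] at h3
      rw [f2 w (by omega) (by omega), hwv]
  · intro v hv
    by_cases h1 : ι v % 2 = 0
    · by_cases h2 : ι v + 1 = P v
      · exact absurd (f1 v h1 h2) hv
      · rw [f2 v h1 h2]; exact hσ v
    · rw [f3 v h1]; exact hadj' v
  · intro v
    by_cases h1 : ι v % 2 = 0
    · by_cases h2 : ι v + 1 = P v
      · left; exact f1 v h1 h2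
      · right; left; exact f2 v h1 h2
    · right; right; exact f3 v h1
  · intro v hv
    obtain ⟨h1, h2⟩ := ffix v hv
    apply E_odd hσ v (ι v / 2)
    have h3 : Function.minimalPeriod σ (σ^[ι v] (β v)) = P v :=
      Function.minimalPeriod_apply_iterate (hper _) _
    rw [hι] at h3
    rw [h3]
    omega
  · rintro v w hv hw ⟨n, hn⟩
    obtain ⟨_, h2⟩ := ffix v hv
    obtain ⟨_, h4⟩ := ffix w hw
    have hβvw : β v = β w := by
      apply hβ2
      refine ⟨n, ?_⟩
      rw [zpow_natCast, ← Equiv.Perm.iterate_eq_pow]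
      exact hn.symm
    have hP : P v = P w := by simp only [P, hβvw]
    have hi : ι v = ι w := by omega
    rw [← hι v, ← hι w, hi, hβvw]

/-! ### Counting -/

theorem fx_eq [Fintype V] (f : V → V) : fx f = Nat.card {v // f v = v} := by
  classical
  unfold fx
  rw [Nat.card_eq_fintype_card, Fintype.card_subtype]

theorem exists_max [Fintype V] (G : SimpleGraph V) : ∃ f : V → V, MaxInv G f := by
  classical
  have hid : Inv G (id : V → V) := ⟨fun _ => rfl, fun v hv => absurd rfl hv⟩
  have hex : ∃ n, ∃ f : V → V, Inv G f ∧ fx f = n := ⟨_, id, hid, rfl⟩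
  obtain ⟨f, hf, hfn⟩ := Nat.find_spec hex
  refine ⟨f, hf, fun f' hf' => ?_⟩
  rw [hfn]
  exact Nat.find_min' hex ⟨f', hf', rfl⟩

theorem uniq_of_card [Fintype V] {G : SimpleGraph V} (hG : RDisjoint G) {h : V → V}
    (hh : MaxInv G h) : Nat.card {C : Set (Sym2 V) // IsOddCycle G C} ≤ fx h ∧
    (fx h ≤ Nat.card {C : Set (Sym2 V) // IsOddCycle G C} →
      ∀ C, IsOddCycle G C → ∀ v w, v ∈ R G C → w ∈ R G C → h v = v → h w = w → v = w) := by
  classical
  have hex : ∀ C : {C : Set (Sym2 V) // IsOddCycle G C}, ∃ v : {v // h v = v},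
      v.1 ∈ R G C.1 := by
    intro C
    obtain ⟨v, hv, hv2⟩ := exists_fixed C.2 (hG.2.1 C.1 C.2) hh
    exact ⟨⟨v, hv2⟩, hv⟩
  choose φ hφ using hex
  have hdis : ∀ (C C' : {C : Set (Sym2 V) // IsOddCycle G C}) (v : V), v ∈ R G C.1 →
      v ∈ R G C'.1 → C = C' := by
    intro C C' v h1 h2
    by_contra hne
    have := hG.2.2 C.1 C'.1 C.2 C'.2 (fun e => hne (Subtype.ext e))
    exact Set.disjoint_left.1 this h1 h2
  have hinj : Function.Injective φ := by
    intro C C' e
    have h1 := hφ C
    rw [e] at h1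
    exact hdis C C' _ h1 (hφ C')
  constructor
  · rw [fx_eq]
    exact Nat.card_le_card_of_injective φ hinj
  · intro hle C hC v w hv hw hfv hfw
    rw [fx_eq] at hle
    have hbij := hinj.bijective_of_nat_card_le hle
    obtain ⟨C1, h1⟩ := hbij.2 ⟨v, hfv⟩
    obtain ⟨C2, h2⟩ := hbij.2 ⟨w, hfw⟩
    have e1 : C1 = ⟨C, hC⟩ := hdis C1 ⟨C, hC⟩ v (by have := hφ C1; rw [h1] at this; exact this) hv
    have e2 : C2 = ⟨C, hC⟩ := hdis C2 ⟨C, hC⟩ w (by have := hφ C2; rw [h2] at this; exact this) hw
    have e3 : (⟨v, hfv⟩ : {v // h v = v}) = ⟨w, hfw⟩ := by rw [← h1, ← h2, e1, e2]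
    exact congrArg Subtype.val e3

theorem preserve [Fintype V] {G : SimpleGraph V} (hG : RDisjoint G) {σ : Equiv.Perm V}
    (hσ : ∀ v, G.Adj v (σ v)) {C : Set (Sym2 V)} (hC : IsOddCycle G C) {x : V}
    (hx : x ∈ R G C) : σ x ∈ R G C := by
  classical
  obtain ⟨f, hfI, hf3, hfodd, hfsep⟩ := perm_matching hσ
  obtain ⟨h, hh⟩ := exists_max G
  -- the map from vertices fixed by `f` to odd cycles
  let Φ : {v // f v = v} → {C : Set (Sym2 V) // IsOddCycle G C} := fun v =>
    ⟨E σ v.1, hfodd v.1 v.2⟩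
  have hΦ : Function.Injective Φ := by
    intro v w e
    have e' : E σ v.1 = E σ w.1 := congrArg Subtype.val e
    have h1 : w.1 ∈ verts (E σ v.1) := by
      rw [e', verts_E]; exact ⟨0, rfl⟩
    rw [verts_E] at h1
    exact Subtype.ext (hfsep v.1 w.1 v.2 w.2 h1)
  have hle : fx f ≤ Nat.card {C : Set (Sym2 V) // IsOddCycle G C} := by
    rw [fx_eq]; exact Nat.card_le_card_of_injective Φ hΦ
  have hle2 := (uniq_of_card hG hh).1
  have hfmax : MaxInv G f := ⟨hfI, fun f' hf' => hle.trans (hle2.trans (hh.2 f' hf'))⟩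
  have hcard : ∀ h' : V → V, MaxInv G h' →
      fx h' ≤ Nat.card {C : Set (Sym2 V) // IsOddCycle G C} :=
    fun h' hh' => (hh'.2 f hfI).trans hle
  have huniq : ∀ h' : V → V, MaxInv G h' →
      ∀ v w, v ∈ R G C → w ∈ R G C → h' v = v → h' w = w → v = w :=
    fun h' hh' => (uniq_of_card hG hh').2 (hcard h' hh') C hC
  have hsurj : Function.Surjective Φ := by
    refine (hΦ.bijective_of_nat_card_le ?_).2
    rw [← fx_eq]; exact (uniq_of_card hG hfmax).1
  obtain ⟨⟨v, hv⟩, hΦv⟩ := hsurj ⟨C, hC⟩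
  have hCE : E σ v = C := congrArg Subtype.val hΦv
  have hVR := verts_subset_R (hG.2.1 C hC)
  have hfwd : ∀ w, w ∈ verts C → σ w ∈ verts C := by
    intro w hw
    rw [← hCE, verts_E] at hw ⊢
    obtain ⟨n, rfl⟩ := hw
    exact ⟨n + 1, (Function.iterate_succ_apply' _ _ _).symm⟩
  obtain ⟨m, hm⟩ : ∃ m : ℕ, σ^[m + 1] v = v := by
    have h1 : v ∈ Function.periodicPts σ := σ.injective.mem_periodicPts v
    have h2 := Function.minimalPeriod_pos_of_mem_periodicPts h1
    refine ⟨Function.minimalPeriod σ v - 1, ?_⟩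
    have e : Function.minimalPeriod σ v - 1 + 1 = Function.minimalPeriod σ v := by omega
    rw [e]
    exact Function.iterate_minimalPeriod
  have hmsym : σ.symm v = σ^[m] v := by
    rw [Equiv.symm_apply_eq, ← Function.iterate_succ_apply' (⇑σ)]
    exact hm.symm
  have hbwd : ∀ w, w ∈ verts C → σ.symm w ∈ verts C := by
    intro w hw
    rw [← hCE, verts_E] at hw ⊢
    obtain ⟨n, rfl⟩ := hw
    rcases n with _ | n
    · exact ⟨m, hmsym⟩
    · refine ⟨n, ?_⟩
      rw [Function.iterate_succ_apply', Equiv.symm_apply_apply]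
  have hEf : Exposed f C v := by
    refine ⟨hv, ?_, ?_⟩
    · rw [← hCE, verts_E]; exact ⟨0, rfl⟩
    · intro w hw hwv
      have hw' := hw
      rw [← hCE, verts_E] at hw'
      obtain ⟨n, hn⟩ := hw'
      have hfw : f w ≠ w := fun e => hwv (hfsep v w hv e ⟨n, hn⟩).symm
      refine ⟨hfw, ?_⟩
      rcases hf3 w with h1 | h1 | h1
      · exact absurd h1 hfw
      · rw [h1, ← hCE, hn, ← Function.iterate_succ_apply' (⇑σ)]
        exact ⟨n, rfl⟩
      · rw [h1, ← hCE, hn]
        rcases n with _ | n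
        · exact absurd hn hwv
        · rw [Function.iterate_succ_apply', Equiv.symm_apply_apply, Sym2.eq_swap,
            ← Function.iterate_succ_apply' (⇑σ)]
          exact ⟨n, rfl⟩
  by_cases hxC : x ∈ verts C
  · exact hVR (hfwd x hxC)
  have hfx : f x ≠ x := by
    intro e
    have h1 : x ∈ verts (E σ x) := by rw [verts_E]; exact ⟨0, rfl⟩
    by_cases h2 : E σ x = C
    · rw [h2] at h1; exact hxC h1
    · have h3 := hG.2.2 (E σ x) C (hfodd x e) hC h2
      exact Set.disjoint_left.1 h3 (verts_subset_R (hG.2.1 _ (hfodd x e)) h1) hx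
  rcases hf3 x with h1 | h1 | h1
  · exact absurd h1 hfx
  · rw [← h1]
    exact fact hC huniq hfmax hEf hx hxC
  · -- conjugate the matching by `σ`
    let f' : V → V := fun w => σ (f (σ.symm w))
    have hf'I : Inv G f' := by
      constructor
      · intro w
        show σ (f (σ.symm (σ (f (σ.symm w))))) = w
        rw [Equiv.symm_apply_apply, hfI.1, Equiv.apply_symm_apply]
      · intro w hw
        show G.Adj w (σ (f (σ.symm w)))
        have hw' : σ (f (σ.symm w)) ≠ w := hw
        rcases hf3 (σ.symm w) with h2 | h2 | h2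
        · rw [h2, Equiv.apply_symm_apply] at hw'
          exact absurd rfl hw'
        · rw [h2, Equiv.apply_symm_apply]; exact hσ w
        · rw [h2, Equiv.apply_symm_apply]
          have := hσ (σ.symm w)
          rw [Equiv.apply_symm_apply] at this
          exact this.symm
    have hfx' : fx f' = fx f := by
      rw [fx_eq, fx_eq]
      refine Nat.card_congr ⟨fun w => ⟨σ.symm w.1, ?_⟩, fun w => ⟨σ w.1, ?_⟩, ?_, ?_⟩
      · have h2 : σ (f (σ.symm w.1)) = w.1 := w.2
        rw [Equiv.eq_symm_apply]; exact h2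
      · show σ (f (σ.symm (σ w.1))) = σ w.1
        rw [Equiv.symm_apply_apply, w.2]
      · intro w; exact Subtype.ext (Equiv.apply_symm_apply _ _)
      · intro w; exact Subtype.ext (Equiv.symm_apply_apply _ _)
    have hf'max : MaxInv G f' := ⟨hf'I, fun g hg => by rw [hfx']; exact hfmax.2 g hg⟩
    have hE' : Exposed f' C (σ v) := by
      refine ⟨?_, hfwd v hEf.2.1, ?_⟩
      · show σ (f (σ.symm (σ v))) = σ v
        rw [Equiv.symm_apply_apply, hv]
      · intro w hw hwv
        have h2 := hbwd w hw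
        have h3 : σ.symm w ≠ v := by
          intro e; apply hwv; rw [← e, Equiv.apply_symm_apply]
        obtain ⟨h4, h5⟩ := hEf.2.2 _ h2 h3
        constructor
        · intro e
          apply h4
          have e' : σ (f (σ.symm w)) = w := e
          rw [Equiv.eq_symm_apply]; exact e'
        · show s(w, σ (f (σ.symm w))) ∈ C
          rw [← hCE] at h5 ⊢
          obtain ⟨n, hn⟩ := h5
          refine ⟨n + 1, ?_⟩
          have e1 : s(w, σ (f (σ.symm w))) = Sym2.map σ s(σ.symm w, f (σ.symm w)) := by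
            rw [Sym2.map_mk, Equiv.apply_symm_apply]
          rw [e1, hn, Sym2.map_mk, Function.iterate_succ_apply' (⇑σ) (n + 1),
            ← Function.iterate_succ_apply' (⇑σ) n]
    have := fact hC huniq hf'max hE' hx hxC
    have e : f' x = σ x := by
      show σ (f (σ.symm x)) = σ x
      rw [← h1, hfI.1]
    rwa [e] at this

/-! ### The determinant -/

open scoped Classical in
/-- The part of the flower decomposition containing `x`. -/
noncomputable def col (G : SimpleGraph V) (x : V) :
    Option {C : Set (Sym2 V) // IsOddCycle G C} :=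
  if h : ∃ C : {C : Set (Sym2 V) // IsOddCycle G C}, x ∈ R G C.1 then some h.choose else none

theorem col_some {G : SimpleGraph V} (hG : RDisjoint G) (x : V)
    (C : {C : Set (Sym2 V) // IsOddCycle G C}) : col G x = some C ↔ x ∈ R G C.1 := by
  unfold col
  constructor
  · intro h
    split_ifs at h with h'
    have := h'.choose_spec
    rwa [Option.some_inj.1 h] at this
  · intro h
    have h' : ∃ C : {C : Set (Sym2 V) // IsOddCycle G C}, x ∈ R G C.1 := ⟨C, h⟩
    rw [dif_pos h']
    congr 1
    by_contra hne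
    have := hG.2.2 _ C.1 h'.choose.2 C.2 (fun e => hne (Subtype.ext e))
    exact Set.disjoint_left.1 this h'.choose_spec h

theorem col_none {G : SimpleGraph V} (x : V) : col G x = none ↔ x ∈ B G := by
  unfold col
  constructor
  · intro h
    split_ifs at h with h'
    intro C hC hx
    exact h' ⟨⟨C, hC⟩, hx⟩
  · intro h
    rw [dif_neg]
    rintro ⟨C, hC⟩
    exact h C.1 C.2 hC

open scoped Classical in
/-- The adjacency matrix with the entries between different parts replaced by zero. -/
noncomputable def cut [Fintype V] (G : SimpleGraph V) : Matrix V V ℝ :=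
  fun i j => if col G i = col G j then (if G.Adj i j then 1 else 0) else 0

open scoped Classical in
theorem block_det [Fintype V] {G : SimpleGraph V} {S : Set V} {n : ℕ}
    (e : Option {C : Set (Sym2 V) // IsOddCycle G C} ≃ Fin n) {k : Fin n}
    (hS : ∀ x, e (col G x) = k ↔ x ∈ S) :
    (Matrix.toSquareBlock (cut G) (fun x => e (col G x)) k).det = detOn G S := by
  unfold detOn
  let e' : {x // e (col G x) = k} ≃ S :=
    ⟨fun x => ⟨x.1, (hS x.1).1 x.2⟩, fun x => ⟨x.1, (hS x.1).2 x.2⟩, fun _ => rfl, fun _ => rfl⟩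
  rw [← Matrix.det_submatrix_equiv_self e']
  congr 1
  ext i j
  have h : col G i.1 = col G j.1 := e.injective (i.2.trans j.2.symm)
  show cut G i.1 j.1 = (G.induce S).adjMatrix ℝ (e' i) (e' j)
  unfold cut
  rw [SimpleGraph.adjMatrix_apply, if_pos h]
  rfl

theorem preserve_inv [Fintype V] {G : SimpleGraph V} (hG : RDisjoint G) {σ : Equiv.Perm V}
    (hσ : ∀ v, G.Adj v (σ v)) {C : Set (Sym2 V)} (hC : IsOddCycle G C) {x : V}
    (hx : σ x ∈ R G C) : x ∈ R G C := by
  have h0 : ∀ n : ℕ, σ^[n] (σ x) ∈ R G C := by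
    intro n
    induction n with
    | zero => exact hx
    | succ n ih =>
      rw [Function.iterate_succ_apply']
      exact preserve hG hσ hC ih
  have h1 : x ∈ Function.periodicPts σ := σ.injective.mem_periodicPts x
  have h2 := Function.minimalPeriod_pos_of_mem_periodicPts h1
  have h3 := h0 (Function.minimalPeriod σ x - 1)
  have e : Function.minimalPeriod σ x - 1 + 1 = Function.minimalPeriod σ x := by omega
  rw [← Function.iterate_succ_apply (⇑σ), Nat.succ_eq_add_one, e,
    Function.iterate_minimalPeriod] at h3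
  exact h3

theorem col_perm [Fintype V] {G : SimpleGraph V} (hG : RDisjoint G) {σ : Equiv.Perm V}
    (hσ : ∀ v, G.Adj v (σ v)) (v : V) : col G (σ v) = col G v := by
  rcases hv : col G v with _ | C
  · rw [col_none] at hv ⊢
    intro C hC hσv
    exact hv C hC (preserve_inv hG hσ hC hσv)
  · rw [col_some hG] at hv ⊢
    exact preserve hG hσ C.2 hv

open scoped Classical in
theorem det_eq_cut [Fintype V] {G : SimpleGraph V} (hG : RDisjoint G) :
    (G.adjMatrix ℝ).det = (cut G).det := by
  rw [Matrix.det_apply, Matrix.det_apply]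
  refine Finset.sum_congr rfl (fun σ _ => ?_)
  congr 1
  by_cases hσ : ∀ v, G.Adj v (σ v)
  · refine Finset.prod_congr rfl (fun v _ => ?_)
    show G.adjMatrix ℝ (σ v) v = cut G (σ v) v
    unfold cut
    rw [SimpleGraph.adjMatrix_apply, if_pos (col_perm hG hσ v)]
  · obtain ⟨v, hv⟩ := not_forall.1 hσ
    have hv' : ¬ G.Adj (σ v) v := fun h => hv h.symm
    have h2 : (fun i => G.adjMatrix ℝ (σ i) i) v = 0 := by
      show G.adjMatrix ℝ (σ v) v = 0
      rw [SimpleGraph.adjMatrix_apply, if_neg hv']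
    have h3 : (fun i => cut G (σ i) i) v = 0 := by
      show cut G (σ v) v = 0
      unfold cut
      rw [if_neg hv']
      split_ifs <;> rfl
    have h4 : ∏ i, G.adjMatrix ℝ (σ i) i = 0 :=
      Finset.prod_eq_zero (f := fun i => G.adjMatrix ℝ (σ i) i) (mem_univ v) h2
    have h5 : ∏ i, cut G (σ i) i = 0 :=
      Finset.prod_eq_zero (f := fun i => cut G (σ i) i) (mem_univ v) h3
    exact h4.trans h5.symm

/-! ### The definition of a blossom through the number of its matching edges -/

/-- For a matching `M` and an odd cycle `C` with `2t+1` vertices, `IsBlossom G M C b` says that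
exactly `t` edges of `C` lie in `M` and that `b` is the vertex of `C` not covered by them. -/
theorem isBlossom_iff {G M : SimpleGraph V} (hM : IsMatching G M) {t : ℕ} (ht : 1 ≤ t)
    {c : ZMod (2 * t + 1) → V} (hc : Function.Injective c)
    (hadj : ∀ i, G.Adj (c i) (c (i + 1))) {C : Set (Sym2 V)}
    (hC : C = {e | ∃ i, e = s(c i, c (i + 1))}) {b : V} :
    IsBlossom G M C b ↔ {e | e ∈ C ∧ e ∈ M.edgeSet}.ncard = t ∧ b ∈ verts C ∧
      ∀ e ∈ C, e ∈ M.edgeSet → b ∉ e := by
  classical
  have hne : NeZero (2 * t + 1) := ⟨by omega⟩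
  have h10 := one_ne ht
  have h20 : (2 : ZMod (2 * t + 1)) ≠ 0 := by
    intro h
    have h0 : ((2 * t + 1 : ℕ) : ZMod (2 * t + 1)) = 0 := ZMod.natCast_self _
    push_cast at h0
    rw [h, zero_mul, zero_add] at h0
    exact h10 h0
  have hs1 : ∀ i : ZMod (2 * t + 1), i + 1 ≠ i := fun i e => h10 (by linear_combination e)
  set S : Finset (ZMod (2 * t + 1)) := univ.filter (fun i => M.Adj (c i) (c (i + 1))) with hS
  have hedge : Function.Injective (fun i : ZMod (2 * t + 1) => s(c i, c (i + 1))) := by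
    intro i j hij
    have hij' : s(c i, c (i + 1)) = s(c j, c (j + 1)) := hij
    rw [Sym2.eq_iff] at hij'
    rcases hij' with ⟨h1, _⟩ | ⟨h1, h2⟩
    · exact hc h1
    · exfalso
      have e1 := hc h1
      have e2 := hc h2
      apply h20
      linear_combination e2 - e1
  have hcard : {e | e ∈ C ∧ e ∈ M.edgeSet}.ncard = S.card := by
    have : {e | e ∈ C ∧ e ∈ M.edgeSet} =
        ((S.image (fun i : ZMod (2 * t + 1) => s(c i, c (i + 1))) : Finset (Sym2 V)) :
          Set (Sym2 V)) := by
      ext e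
      rw [Finset.mem_coe, Finset.mem_image]
      constructor
      · rintro ⟨h1, h2⟩
        rw [hC] at h1
        obtain ⟨i, rfl⟩ := h1
        exact ⟨i, by rw [hS, Finset.mem_filter]; exact ⟨mem_univ _, h2⟩, rfl⟩
      · rintro ⟨i, hi, rfl⟩
        rw [hS, Finset.mem_filter] at hi
        exact ⟨by rw [hC]; exact ⟨i, rfl⟩, hi.2⟩
    rw [this, Set.ncard_coe_finset, Finset.card_image_of_injective _ hedge]
  set T : Finset (ZMod (2 * t + 1)) := S ∪ S.image (fun i => i + 1) with hT
  have hTcard : T.card = 2 * S.card := by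
    rw [hT, Finset.card_union_of_disjoint,
      Finset.card_image_of_injective _ (add_left_injective 1)]
    · ring
    · rw [Finset.disjoint_left]
      intro i hi hi2
      rw [Finset.mem_image] at hi2
      obtain ⟨j, hj, rfl⟩ := hi2
      rw [hS, Finset.mem_filter] at hi hj
      have h1 := hM.2 _ _ _ hj.2.symm hi.2
      have h2 := hc h1
      apply h20
      linear_combination -h2
  have hcov : ∀ i, (∃ e ∈ C, e ∈ M.edgeSet ∧ c i ∈ e) ↔ i ∈ T := by
    intro i
    rw [hT, Finset.mem_union, Finset.mem_image]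
    constructor
    · rintro ⟨e, h1, h2, h3⟩
      rw [hC] at h1
      obtain ⟨j, rfl⟩ := h1
      have hj : j ∈ S := by rw [hS, Finset.mem_filter]; exact ⟨mem_univ _, h2⟩
      rcases Sym2.mem_iff.1 h3 with h | h
      · left; rw [hc h]; exact hj
      · right; exact ⟨j, hj, (hc h).symm⟩
    · rintro (h | ⟨j, hj, rfl⟩)
      · rw [hS, Finset.mem_filter] at h
        exact ⟨_, by rw [hC]; exact ⟨i, rfl⟩, h.2, Sym2.mem_mk_left _ _⟩
      · rw [hS, Finset.mem_filter] at hj
        exact ⟨_, by rw [hC]; exact ⟨j, rfl⟩, hj.2, Sym2.mem_mk_right _ _⟩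
  have hv : verts C = Set.range c := by rw [hC, verts_eq]
  have hodd : IsOddCycle G C := ⟨t, c, ht, hc, hadj, hC⟩
  have hu : (univ : Finset (ZMod (2 * t + 1))).card = 2 * t + 1 := by
    rw [Finset.card_univ, ZMod.card]
  constructor
  · rintro ⟨_, hb, h⟩
    refine ⟨?_, hb, fun e he heM hbe => (h b hb).2 ⟨e, he, heM, hbe⟩ rfl⟩
    rw [hv] at hb
    obtain ⟨a, rfl⟩ := hb
    have hTe : T = univ.erase a := by
      ext i
      rw [← hcov, Finset.mem_erase, ← h (c i) (by rw [hv]; exact ⟨i, rfl⟩)]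
      constructor
      · intro h1; exact ⟨fun e => h1 (by rw [e]), mem_univ _⟩
      · rintro ⟨h1, _⟩ e; exact h1 (hc e)
    rw [hcard]
    have := congrArg Finset.card hTe
    rw [hTcard, Finset.card_erase_of_mem (mem_univ _), hu] at this
    omega
  · rintro ⟨h1, hb, h2⟩
    refine ⟨hodd, hb, ?_⟩
    rw [hv] at hb
    obtain ⟨a, rfl⟩ := hb
    have haT : a ∉ T := by
      rw [← hcov]
      rintro ⟨e, h3, h4, h5⟩
      exact h2 e h3 h4 h5
    have hTe : T = univ.erase a := by
      apply Finset.eq_of_subset_of_card_le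
      · intro i hi
        rw [Finset.mem_erase]
        exact ⟨fun e => haT (e ▸ hi), mem_univ _⟩
      · rw [hTcard, Finset.card_erase_of_mem (mem_univ _), hu]
        rw [hcard] at h1
        omega
    intro v hvC
    rw [hv] at hvC
    obtain ⟨i, rfl⟩ := hvC
    rw [hcov, hTe, Finset.mem_erase]
    constructor
    · intro h; exact ⟨fun e => h (by rw [e]), mem_univ _⟩
    · rintro ⟨h, _⟩ e; exact h (hc e)

open scoped Classical in
/-- **Main theorem.** The adjacency determinant of an `R`-disjoint graph is the product of the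
adjacency determinants of the parts of its flower decomposition. -/
theorem result {V : Type} [Fintype V] (G : SimpleGraph V) (hG : RDisjoint G) :
    (G.adjMatrix ℝ).det = detOn G (B G) *
      ∏ C : {C : Set (Sym2 V) // IsOddCycle G C}, detOn G (R G C.1) := by
  rw [det_eq_cut hG]
  let e := Fintype.equivFin (Option {C : Set (Sym2 V) // IsOddCycle G C})
  have hbt : (cut G).BlockTriangular (fun x => e (col G x)) := by
    intro i j hij
    unfold cut
    rw [if_neg]
    intro h
    have h' : e (col G j) < e (col G i) := hij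
    rw [h] at h'
    exact lt_irrefl _ h'
  rw [hbt.det_fintype, ← Equiv.prod_comp e, Fintype.prod_option]
  congr 1
  · refine block_det e (fun x => ?_)
    rw [e.injective.eq_iff]
    exact col_none x
  · refine Finset.prod_congr rfl (fun C _ => ?_)
    refine block_det e (fun x => ?_)
    rw [e.injective.eq_iff]
    exact col_some hG x C

end Pool.Agent.Results.MP_079569_co.DetFactor
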